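import Pool.Agent.J4H97.PM2.M

set_option autoImplicit false

/-!
# The standard monomials form a basis
-/

universe u

namespace Pool.Agent.J4H97.PM2

open Pool.Agent.W506.PM MvPolynomial

section Step

variable {k : Type u} [Field k] {E : Type u} [Ring E] [Algebra k E]

/-- `N + u N` -/
noncomputable def stp (N : Submodule k E) (u : E) : Submodule k E :=
  N ⊔ N.map (LinearMap.mulLeft k u)

theorem mem_stp {N : Submodule k E} {u v : E} :
    v ∈ stp N u ↔ ∃ n ∈ N, ∃ m ∈ N, v = n + u * m := by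
  rw [stp, Submodule.mem_sup]
  constructor
  · rintro ⟨n, hn, m, hm, rfl⟩
    obtain ⟨m', hm', rfl⟩ := Submodule.mem_map.1 hm
    exact ⟨n, hn, m', hm', rfl⟩
  · rintro ⟨n, hn, m, hm, rfl⟩
    exact ⟨n, hn, u * m, Submodule.mem_map.2 ⟨m, hm, rfl⟩, rfl⟩

theorem stp_u {N : Submodule k E} {u : E} (h : ∀ n ∈ N, u * u * n ∈ N) :
    ∀ v ∈ stp N u, u * v ∈ stp N u := by
  intro v hv
  obtain ⟨n, hn, m, hm, rfl⟩ := mem_stp.1 hv
  rw [mem_stp]
  refine ⟨u * u * m, h m hm, n, hn, ?_⟩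
  noncomm_ring

theorem stp_g {N : Submodule k E} {u g : E} (h : ∀ n ∈ N, g * n ∈ N)
    (h' : ∀ n ∈ N, (u * g + g * u) * n ∈ N) : ∀ v ∈ stp N u, g * v ∈ stp N u := by
  intro v hv
  obtain ⟨n, hn, m, hm, rfl⟩ := mem_stp.1 hv
  rw [mem_stp]
  refine ⟨g * n + (u * g + g * u) * m, Submodule.add_mem _ (h n hn) (h' m hm), -(g * m),
    Submodule.neg_mem _ (h m hm), ?_⟩
  noncomm_ring

theorem stp_c {N : Submodule k E} {u c : E} (h : ∀ n ∈ N, c * n ∈ N) (hc : Commute c u) :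
    ∀ v ∈ stp N u, c * v ∈ stp N u := by
  intro v hv
  obtain ⟨n, hn, m, hm, rfl⟩ := mem_stp.1 hv
  rw [mem_stp]
  refine ⟨c * n, h n hn, c * m, h m hm, ?_⟩
  rw [mul_add, ← mul_assoc, hc.eq, mul_assoc]

theorem le_stp {N : Submodule k E} {u v : E} (hv : v ∈ N) : v ∈ stp N u :=
  mem_stp.2 ⟨v, hv, 0, N.zero_mem, by simp⟩

end Step

variable {k : Type u} [Field k] (φ : GaussianInt →+* k)

/-- `xz + zx` -/
noncomputable def cP : AA φ := gg φ 1 * gg φ 0 + gg φ 0 * gg φ 1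
/-- `xy + yx` -/
noncomputable def cp : AA φ := gg φ 1 * gg φ 3 + gg φ 3 * gg φ 1

/-- the standard monomials -/
noncomputable def BB (e : Fin 4 → ℕ) : AA φ :=
  cP φ ^ (e 1 / 2) * (cp φ ^ (e 3 / 2) *
    (gg φ 3 ^ (e 3 % 2) * (gg φ 1 ^ (e 1 % 2) * (gg φ 0 ^ e 0 * gg φ 2 ^ e 2))))

section Act

theorem exists_act : ∃ F : AA φ →ₐ[k] Module.End (SS k) (N4 k),
    F (gg φ 0) = z4 (im φ) ∧ F (gg φ 1) = x4 (im φ) ∧
    F (gg φ 2) = w4 (im φ) ∧ F (gg φ 3) = y4 (im φ) := by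
  obtain ⟨F, hF⟩ := up_gg φ (Module.End (SS k) (N4 k)) ![z4 (im φ), x4 (im φ), w4 (im φ), y4 (im φ)]
    ((rels_iff φ _).2 (rels4 (im φ)))
  exact ⟨F, hF 0, hF 1, hF 2, hF 3⟩

/-- the action -/
noncomputable def FF : AA φ →ₐ[k] Module.End (SS k) (N4 k) := (exists_act φ).choose

theorem FF_z : FF φ (gg φ 0) = z4 (im φ) := (exists_act φ).choose_spec.1
theorem FF_x : FF φ (gg φ 1) = x4 (im φ) := (exists_act φ).choose_spec.2.1
theorem FF_w : FF φ (gg φ 2) = w4 (im φ) := (exists_act φ).choose_spec.2.2.1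
theorem FF_y : FF φ (gg φ 3) = y4 (im φ) := (exists_act φ).choose_spec.2.2.2

/-- the exponent vector -/
noncomputable def expo (i : Fin 4 → ℕ) : Fin 4 →₀ ℕ :=
  Finsupp.equivFunOnFinite.symm fun j => i j / 2

theorem smul_one_pow {S : Type u} [CommRing S] {N : Type u} [AddCommGroup N] [Module S N]
    (s : S) (n : ℕ) : (s • (1 : Module.End S N)) ^ n = (s ^ n) • 1 := by
  rw [smul_pow, one_pow]

theorem act_BB (e : Fin 4 → ℕ) : FF φ (BB φ e) (vac k)
    = sel (e 3) (sel (e 1) (sel (e 0) (sel (e 2) (monomial (expo e) (1 : k))))) := by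
  have h1 : FF φ (cP φ) = (X 1 : SS k) • 1 := by
    rw [cP, map_add, map_mul, map_mul, FF_x, FF_z, xz4]
  have h2 : FF φ (cp φ) = (X 3 : SS k) • 1 := by
    rw [cp, map_add, map_mul, map_mul, FF_x, FF_y, add_comm, yx4]
  rw [BB, map_mul, map_mul, map_pow, map_pow, h1, h2, smul_one_pow, smul_one_pow,
    Module.End.mul_apply, Module.End.mul_apply, map_mul, map_mul, map_mul, map_pow, map_pow,
    map_pow, map_pow, FF_x, FF_y, FF_z, FF_w, act_mon]
  simp only [LinearMap.smul_apply, Module.End.one_apply, ← sel_smul, smul_eq_mul]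
  congr 4
  rw [monomial_eq, expo]
  simp only [map_one, one_mul]
  rw [Finsupp.prod_fintype _ _ (by simp)]
  rw [Fin.prod_univ_four]
  simp only [Finsupp.equivFunOnFinite_symm_apply_apply]
  ring

/-- the coordinate functionals -/
noncomputable def lam (e : Fin 4 → ℕ) : AA φ →ₗ[k] k where
  toFun u := coeff (expo e) (get (e 2) (get (e 0) (get (e 1) (get (e 3) (FF φ u (vac k))))))
  map_add' u v := by simp only [map_add, LinearMap.add_apply, get_add, coeff_add]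
  map_smul' c u := by
    simp only [map_smul, LinearMap.smul_apply, get_smul, coeff_smul, RingHom.id_apply]

theorem key_inj (i j : Fin 4 → ℕ) (h0 : i 0 % 2 = j 0 % 2) (h1 : i 1 % 2 = j 1 % 2)
    (h2 : i 2 % 2 = j 2 % 2) (h3 : i 3 % 2 = j 3 % 2) (h : expo i = expo j) : i = j := by
  have a0 : i 0 / 2 = j 0 / 2 := by simpa [expo] using DFunLike.congr_fun h 0
  have a1 : i 1 / 2 = j 1 / 2 := by simpa [expo] using DFunLike.congr_fun h 1
  have a2 : i 2 / 2 = j 2 / 2 := by simpa [expo] using DFunLike.congr_fun h 2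
  have a3 : i 3 / 2 = j 3 / 2 := by simpa [expo] using DFunLike.congr_fun h 3
  funext l
  fin_cases l
  · show i 0 = j 0; omega
  · show i 1 = j 1; omega
  · show i 2 = j 2; omega
  · show i 3 = j 3; omega

theorem lam_BB (i j : Fin 4 → ℕ) : lam φ i (BB φ j) = if i = j then 1 else 0 := by
  show coeff (expo i) (get (i 2) (get (i 0) (get (i 1) (get (i 3) (FF φ (BB φ j) (vac k)))))) = _
  rw [act_BB, get_sel]
  by_cases h : i = j
  · subst h
    simp [get_sel]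
  · rw [if_neg h]
    by_cases h3 : i 3 % 2 = j 3 % 2
    · rw [if_pos h3, get_sel]
      by_cases h1 : i 1 % 2 = j 1 % 2
      · rw [if_pos h1, get_sel]
        by_cases h0 : i 0 % 2 = j 0 % 2
        · rw [if_pos h0, get_sel]
          by_cases h2 : i 2 % 2 = j 2 % 2
          · rw [if_pos h2, coeff_monomial, if_neg]
            intro h4
            exact h (key_inj i j h0 h1 h2 h3 h4.symm)
          · rw [if_neg h2, coeff_zero]
        · rw [if_neg h0, get_zero, coeff_zero]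
      · rw [if_neg h1, get_zero, get_zero, coeff_zero]
    · rw [if_neg h3, get_zero, get_zero, get_zero, coeff_zero]

theorem linearIndependent_BB : LinearIndependent k (BB φ) := by
  rw [linearIndependent_iff']
  intro s g hg i hi'
  have := congrArg (lam φ i) hg
  simpa [lam_BB, hi'] using this

end Act

section Span

variable (h2 : (2 : k) ≠ 0) (h5 : (2 + 4 * im φ : k) ≠ 0)

theorem im_ne : im φ ≠ 0 := by
  intro h
  have := im_sq φ
  rw [h, mul_zero] at this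
  exact one_ne_zero (neg_eq_zero.1 this.symm)

include h2 in
theorem relsA : Rels (im φ) (gg φ 0) (gg φ 1) (gg φ 2) (gg φ 3) :=
  (rels_iff φ _).1 (rel_gg φ h2)

include h2 in
theorem cen_all (c : AA φ) (hc : ∀ j, Commute c (gg φ j)) (u : AA φ) : Commute c u := by
  have hu : u ∈ Algebra.adjoin k (Set.range (gg φ)) := by rw [adjoin_gg φ h2]; trivial
  induction hu using Algebra.adjoin_induction with
  | mem y hy => obtain ⟨j, rfl⟩ := hy; exact hc j
  | algebraMap r => exact (Algebra.commutes r c).symm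
  | add y z _ _ hy hz => exact hy.add_right hz
  | mul y z _ _ hy hz => exact hy.mul_right hz

include h2 h5

theorem cenP (u : AA φ) : Commute (cP φ) u := by
  have h := relsA φ h2
  refine cen_all φ h2 _ (fun j => ?_) u
  fin_cases j
  exacts [h.cPz h5, h.cPx, h.cPw h5, h.cPy h5 (im_ne φ)]

theorem cenp (u : AA φ) : Commute (cp φ) u := by
  have h := relsA φ h2
  refine cen_all φ h2 _ (fun j => ?_) u
  fin_cases j
  exacts [h.cpz h5 (im_ne φ), h.cpx h5, h.cpw h5 (im_ne φ), h.cpy h5]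

theorem cenZ (u : AA φ) : Commute (gg φ 0 * gg φ 0) u := by
  have h := relsA φ h2
  refine cen_all φ h2 _ (fun j => ?_) u
  fin_cases j
  exacts [cww _, h.czzx h5, h.czzw, h.czzy h5]

theorem cenW (u : AA φ) : Commute (gg φ 2 * gg φ 2) u := by
  have h := relsA φ h2
  refine cen_all φ h2 _ (fun j => ?_) u
  fin_cases j
  exacts [h.cwwz, h.cwwx h5, cww _, h.cwwy h5]

/-- the monomials of the first level -/
noncomputable def T0 (m n a b : ℕ) : AA φ :=
  cP φ ^ m * (cp φ ^ n * (gg φ 0 ^ a * gg φ 2 ^ b))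

/-- their span -/
noncomputable def L0 : Submodule k (AA φ) :=
  Submodule.span k (Set.range fun i : Fin 4 → ℕ => T0 φ (i 1) (i 3) (i 0) (i 2))

omit h2 h5 in
theorem T0_mem (m n a b : ℕ) : T0 φ m n a b ∈ L0 φ :=
  Submodule.subset_span ⟨![a, m, b, n], rfl⟩

omit h2 h5 in
theorem L0_ind {p : AA φ → Prop} (h : ∀ m n a b, p (T0 φ m n a b)) (h0 : p 0)
    (ha : ∀ u v, p u → p v → p (u + v)) (hs : ∀ (c : k) u, p u → p (c • u)) (v : AA φ)
    (hv : v ∈ L0 φ) : p v := by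
  induction hv using Submodule.span_induction with
  | mem z hz => obtain ⟨i, rfl⟩ := hz; exact h _ _ _ _
  | zero => exact h0
  | add y z _ _ hy hz => exact ha _ _ hy hz
  | smul c y _ hy => exact hs _ _ hy

omit h2 h5 in
theorem L0_mul {g : AA φ} (N : Submodule k (AA φ)) (h : ∀ m n a b, g * T0 φ m n a b ∈ N) :
    ∀ v ∈ L0 φ, g * v ∈ N :=
  L0_ind φ h (by rw [mul_zero]; exact N.zero_mem)
    (fun u v hu hv => by rw [mul_add]; exact N.add_mem hu hv)
    (fun c u hu => by rw [mul_smul_comm]; exact N.smul_mem _ hu)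

theorem L0_P : ∀ v ∈ L0 φ, cP φ * v ∈ L0 φ := by
  refine L0_mul φ _ fun m n a b => ?_
  rw [T0, ← mul_assoc, ← pow_succ']
  exact T0_mem φ _ _ _ _

theorem L0_p : ∀ v ∈ L0 φ, cp φ * v ∈ L0 φ := by
  refine L0_mul φ _ fun m n a b => ?_
  rw [T0, ← mul_assoc, (cenp φ h2 h5 (cP φ ^ m)).eq, mul_assoc, ← mul_assoc (cp φ), ← pow_succ']
  exact T0_mem φ _ _ _ _

theorem mul_T0 (g : AA φ) (m n a b : ℕ) :
    g * T0 φ m n a b = cP φ ^ m * (cp φ ^ n * (g * (gg φ 0 ^ a * gg φ 2 ^ b))) := by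
  rw [T0, ← mul_assoc, ← ((cenP φ h2 h5 g).pow_left m).eq, mul_assoc, ← mul_assoc g,
    ← ((cenp φ h2 h5 g).pow_left n).eq, mul_assoc]

theorem L0_z : ∀ v ∈ L0 φ, gg φ 0 * v ∈ L0 φ := by
  refine L0_mul φ _ fun m n a b => ?_
  rw [mul_T0 φ h2 h5, ← mul_assoc (gg φ 0), ← pow_succ']
  exact T0_mem φ _ _ _ _

theorem w_zpow (a : ℕ) : gg φ 2 * gg φ 0 ^ a = (-1 : k) ^ a • (gg φ 0 ^ a * gg φ 2) := by
  have h := (relsA φ h2).zw
  have h1 : gg φ 2 * gg φ 0 = -(gg φ 0 * gg φ 2) := by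
    rw [← sub_eq_zero, sub_neg_eq_add, ← h]; abel
  induction a with
  | zero => simp
  | succ a ih =>
    rw [pow_succ, ← mul_assoc, ih, smul_mul_assoc, mul_assoc, h1, pow_succ, mul_smul]
    simp [mul_assoc]

theorem L0_w : ∀ v ∈ L0 φ, gg φ 2 * v ∈ L0 φ := by
  refine L0_mul φ _ fun m n a b => ?_
  rw [mul_T0 φ h2 h5, ← mul_assoc (gg φ 2), w_zpow φ h2 h5, smul_mul_assoc, mul_assoc,
    ← pow_succ', mul_smul_comm, mul_smul_comm]
  exact Submodule.smul_mem _ _ (T0_mem φ _ _ _ _)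

/-- second level -/
noncomputable def L1 : Submodule k (AA φ) := stp (L0 φ) (gg φ 1)
/-- third level -/
noncomputable def L2 : Submodule k (AA φ) := stp (L1 φ) (gg φ 3)

omit h2 h5 in
/-- closure under quadratic combinations -/
theorem quad {N : Submodule k (AA φ)} {P Z W : AA φ} (hP : ∀ n ∈ N, P * n ∈ N)
    (hZ : ∀ n ∈ N, Z * n ∈ N) (hW : ∀ n ∈ N, W * n ∈ N) (a b c : k) :
    ∀ n ∈ N, (a • P + b • (Z * Z) + c • (W * W)) * n ∈ N := by
  intro n hn
  rw [add_mul, add_mul, smul_mul_assoc, smul_mul_assoc, smul_mul_assoc, mul_assoc, mul_assoc]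
  exact N.add_mem (N.add_mem (N.smul_mem _ (hP n hn)) (N.smul_mem _ (hZ _ (hZ n hn))))
    (N.smul_mem _ (hW _ (hW n hn)))

theorem L1_x : ∀ v ∈ L1 φ, gg φ 1 * v ∈ L1 φ := by
  refine stp_u fun n hn => ?_
  have e : gg φ 1 * gg φ 1 = (0 : k) • cP φ + (-(3 + 2 * im φ)) • (gg φ 0 * gg φ 0)
      + (-(1 - 2 * im φ)) • (gg φ 2 * gg φ 2) := by
    rw [(relsA φ h2).xx]; module
  rw [e]
  exact quad φ (L0_P φ h2 h5) (L0_z φ h2 h5) (L0_w φ h2 h5) _ _ _ n hn

theorem L1_z : ∀ v ∈ L1 φ, gg φ 0 * v ∈ L1 φ :=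
  stp_g (L0_z φ h2 h5) (L0_P φ h2 h5)

theorem L1_w : ∀ v ∈ L1 φ, gg φ 2 * v ∈ L1 φ := by
  refine stp_g (L0_w φ h2 h5) fun n hn => ?_
  have e : gg φ 1 * gg φ 2 + gg φ 2 * gg φ 1 = (1 : k) • cP φ + (0 : k) • (gg φ 0 * gg φ 0)
      + (-(2 + 2 * im φ)) • (gg φ 2 * gg φ 2) := by
    rw [(relsA φ h2).xw, cP]; module
  rw [e]
  exact quad φ (L0_P φ h2 h5) (L0_z φ h2 h5) (L0_w φ h2 h5) _ _ _ n hn

theorem L1_P : ∀ v ∈ L1 φ, cP φ * v ∈ L1 φ := stp_c (L0_P φ h2 h5) (cenP φ h2 h5 _)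
theorem L1_p : ∀ v ∈ L1 φ, cp φ * v ∈ L1 φ := stp_c (L0_p φ h2 h5) (cenp φ h2 h5 _)

theorem L2_y : ∀ v ∈ L2 φ, gg φ 3 * v ∈ L2 φ := by
  refine stp_u fun n hn => ?_
  have e : gg φ 3 * gg φ 3 = (0 : k) • cP φ + (-2 : k) • (gg φ 0 * gg φ 0)
      + (-(2 - 2 * im φ)) • (gg φ 2 * gg φ 2) := by
    rw [(relsA φ h2).yy]; module
  rw [e]
  exact quad φ (L1_P φ h2 h5) (L1_z φ h2 h5) (L1_w φ h2 h5) _ _ _ n hn

theorem L2_x : ∀ v ∈ L2 φ, gg φ 1 * v ∈ L2 φ := by
  refine stp_g (L1_x φ h2 h5) fun n hn => ?_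
  have e : gg φ 3 * gg φ 1 + gg φ 1 * gg φ 3 = cp φ := by rw [cp]; abel
  rw [e]
  exact L1_p φ h2 h5 n hn

theorem L2_z : ∀ v ∈ L2 φ, gg φ 0 * v ∈ L2 φ := by
  refine stp_g (L1_z φ h2 h5) fun n hn => ?_
  have e : gg φ 3 * gg φ 0 + gg φ 0 * gg φ 3 = (-im φ) • cP φ + (0 : k) • (gg φ 0 * gg φ 0)
      + (-2 : k) • (gg φ 2 * gg φ 2) := by
    rw [(relsA φ h2).yz, cP]; module
  rw [e]
  exact quad φ (L1_P φ h2 h5) (L1_z φ h2 h5) (L1_w φ h2 h5) _ _ _ n hn

theorem L2_w : ∀ v ∈ L2 φ, gg φ 2 * v ∈ L2 φ := by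
  refine stp_g (L1_w φ h2 h5) fun n hn => ?_
  have e : gg φ 3 * gg φ 2 + gg φ 2 * gg φ 3 = (im φ) • cP φ + (2 * im φ) • (gg φ 0 * gg φ 0)
      + (4 : k) • (gg φ 2 * gg φ 2) := by
    rw [(relsA φ h2).yw, cP]
  rw [e]
  exact quad φ (L1_P φ h2 h5) (L1_z φ h2 h5) (L1_w φ h2 h5) _ _ _ n hn

theorem L2_top : L2 φ = ⊤ := by
  rw [eq_top_iff]
  intro u _
  have hu : u ∈ Algebra.adjoin k (Set.range (gg φ)) := by
    rw [adjoin_gg φ h2]; trivial
  have key : ∀ z ∈ L2 φ, u * z ∈ L2 φ := by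
    induction hu using Algebra.adjoin_induction with
    | mem y hy =>
      obtain ⟨j, rfl⟩ := hy
      fin_cases j
      · exact L2_z φ h2 h5
      · exact L2_x φ h2 h5
      · exact L2_w φ h2 h5
      · exact L2_y φ h2 h5
    | algebraMap c =>
      intro z hz
      rw [← Algebra.smul_def]; exact Submodule.smul_mem _ _ hz
    | add y z _ _ hy hz =>
      intro w hw
      rw [add_mul]; exact Submodule.add_mem _ (hy trivial w hw) (hz trivial w hw)
    | mul y z _ _ hy hz =>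
      intro w hw
      rw [mul_assoc]; exact hy trivial _ (hz trivial w hw)
  have h1 : (1 : AA φ) ∈ L2 φ := by
    apply le_stp
    apply le_stp
    have := T0_mem φ 0 0 0 0
    simpa [T0] using this
  have := key 1 h1
  rwa [mul_one] at this

omit h2 h5 in
theorem BB_mem (a b c d : ℕ) : BB φ ![a, b, c, d] ∈ Submodule.span k (Set.range (BB φ)) :=
  Submodule.subset_span ⟨_, rfl⟩

theorem SP_top : Submodule.span k (Set.range (BB φ)) = ⊤ := by
  set SP := Submodule.span k (Set.range (BB φ)) with hSP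
  rw [eq_top_iff, ← L2_top φ h2 h5]
  have e0 : ∀ v ∈ L0 φ, v ∈ SP := by
    refine L0_ind φ (fun m n a b => ?_) SP.zero_mem (fun u v => SP.add_mem)
      (fun c u => SP.smul_mem c)
    have := BB_mem φ a (2 * m) b (2 * n)
    have e1 : 2 * m / 2 = m := by omega
    have e2 : 2 * n / 2 = n := by omega
    simpa [BB, T0, e1, e2] using this
  have e1 : ∀ v ∈ L0 φ, gg φ 1 * v ∈ SP := by
    refine L0_mul φ _ fun m n a b => ?_
    have := BB_mem φ a (2 * m + 1) b (2 * n)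
    have e1 : (2 * m + 1) / 2 = m := by omega
    have e2 : 2 * n / 2 = n := by omega
    rw [mul_T0 φ h2 h5]
    simpa [BB, e1, e2, Nat.add_mod] using this
  have e2 : ∀ v ∈ L0 φ, gg φ 3 * v ∈ SP := by
    refine L0_mul φ _ fun m n a b => ?_
    have := BB_mem φ a (2 * m) b (2 * n + 1)
    have e1 : (2 * m) / 2 = m := by omega
    have e2 : (2 * n + 1) / 2 = n := by omega
    rw [mul_T0 φ h2 h5]
    simpa [BB, e1, e2, Nat.add_mod] using this
  have e3 : ∀ v ∈ L0 φ, (gg φ 3 * gg φ 1) * v ∈ SP := by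
    refine L0_mul φ _ fun m n a b => ?_
    have := BB_mem φ a (2 * m + 1) b (2 * n + 1)
    have e1 : (2 * m + 1) / 2 = m := by omega
    have e2 : (2 * n + 1) / 2 = n := by omega
    rw [mul_T0 φ h2 h5]
    simpa [BB, e1, e2, Nat.add_mod, mul_assoc] using this
  intro v hv
  obtain ⟨n, hn, m, hm, rfl⟩ := mem_stp.1 hv
  obtain ⟨n1, hn1, n2, hn2, rfl⟩ := mem_stp.1 hn
  obtain ⟨m1, hm1, m2, hm2, rfl⟩ := mem_stp.1 hm
  rw [mul_add, ← mul_assoc]
  exact SP.add_mem (SP.add_mem (e0 _ hn1) (e1 _ hn2)) (SP.add_mem (e2 _ hm1) (e3 _ hm2))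

/-- the basis of standard monomials -/
noncomputable def bas : Module.Basis (Fin 4 → ℕ) k (AA φ) :=
  Module.Basis.mk (linearIndependent_BB φ) (SP_top φ h2 h5).ge

theorem bas_apply (i : Fin 4 → ℕ) : bas φ h2 h5 i = BB φ i := by
  exact Module.Basis.mk_apply (linearIndependent_BB φ) (SP_top φ h2 h5).ge i

end Span

end Pool.Agent.J4H97.PM2
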