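import Pool.Agent.J4H97.PM2.P

set_option autoImplicit false

/-!
# The relations written out, and the central elements
-/

universe u

namespace Pool.Agent.J4H97.PM2

open Pool.Agent.W506.PM

variable {k : Type u} [Field k]

/-- The six relations for four elements of an algebra. -/
structure Rels (I : k) {E : Type u} [Ring E] [Algebra k E] (z x w y : E) : Prop where
  zw : z * w + w * z = 0
  xw : x * w + w * x = (x * z + z * x) - (2 + 2 * I) • (w * w)
  yz : y * z + z * y = -(I • (x * z + z * x)) - (2 : k) • (w * w)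
  yw : y * w + w * y = I • (x * z + z * x) + (2 * I) • (z * z) + (4 : k) • (w * w)
  xx : x * x = -((3 + 2 * I) • (z * z)) - (1 - 2 * I) • (w * w)
  yy : y * y = -((2 : k) • (z * z)) - (2 - 2 * I) • (w * w)

section

variable (φ : GaussianInt →+* k)

/-- the square root of `-1` -/
def im : k := φ ⟨0, 1⟩

theorem im_sq : im φ * im φ = -1 := by
  rw [im, ← map_mul]
  have : (⟨0, 1⟩ * ⟨0, 1⟩ : GaussianInt) = -1 := by decide
  rw [this, map_neg, map_one]

theorem phi_eq (a b : ℤ) : φ ⟨a, b⟩ = (a : k) + (b : k) * im φ := by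
  have : (⟨a, b⟩ : GaussianInt) = (a : GaussianInt) + (b : GaussianInt) * ⟨0, 1⟩ := by
    ext <;> simp
  rw [this, map_add, map_mul, map_intCast, map_intCast, im]

theorem rels_iff {E : Type u} [Ring E] [Algebra k E] (X : Fin 4 → E) :
    (∀ c, ∑ a, ∑ b, rr φ c a b • (X a * X b) = 0) ↔ Rels (im φ) (X 0) (X 1) (X 2) (X 3) := by
  constructor
  · intro h
    have h0 := h 0
    have h1 := h 1
    have h2 := h 2
    have h3 := h 3
    have h4 := h 4
    have h5 := h 5
    simp only [Fin.sum_univ_four, rr, RZ, Matrix.cons_val, phi_eq, Int.cast_zero,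
      Int.cast_one, Int.cast_neg, Int.cast_ofNat] at h0 h1 h2 h3 h4 h5
    constructor
    · rw [← h0]; module
    · rw [← sub_eq_zero, ← h1]; module
    · rw [← sub_eq_zero, ← h2]; module
    · rw [← sub_eq_zero, ← h3]; module
    · rw [← sub_eq_zero, ← h4]; module
    · rw [← sub_eq_zero, ← h5]; module
  · intro h c
    fin_cases c
    · have := h.zw
      simp only [Fin.sum_univ_four, rr, RZ, Matrix.cons_val, phi_eq, Int.cast_zero,
        Int.cast_one, Int.cast_neg, Int.cast_ofNat, Fin.zero_eta]
      rw [← this]; module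
    · have := h.xw
      rw [← sub_eq_zero] at this
      simp only [Fin.sum_univ_four, rr, RZ, Matrix.cons_val, phi_eq, Int.cast_zero,
        Int.cast_one, Int.cast_neg, Int.cast_ofNat, Fin.mk_one]
      rw [← this]; module
    · have := h.yz
      rw [← sub_eq_zero] at this
      simp only [Fin.sum_univ_four, rr, RZ, Matrix.cons_val, phi_eq, Int.cast_zero,
        Int.cast_one, Int.cast_neg, Int.cast_ofNat, Fin.reduceFinMk]
      rw [← this]; module
    · have := h.yw
      rw [← sub_eq_zero] at this
      simp only [Fin.sum_univ_four, rr, RZ, Matrix.cons_val, phi_eq, Int.cast_zero,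
        Int.cast_one, Int.cast_neg, Int.cast_ofNat, Fin.reduceFinMk]
      rw [← this]; module
    · have := h.xx
      rw [← sub_eq_zero] at this
      simp only [Fin.sum_univ_four, rr, RZ, Matrix.cons_val, phi_eq, Int.cast_zero,
        Int.cast_one, Int.cast_neg, Int.cast_ofNat, Fin.reduceFinMk]
      rw [← this]; module
    · have := h.yy
      rw [← sub_eq_zero] at this
      simp only [Fin.sum_univ_four, rr, RZ, Matrix.cons_val, phi_eq, Int.cast_zero,
        Int.cast_one, Int.cast_neg, Int.cast_ofNat, Fin.reduceFinMk]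
      rw [← this]; module

end

section Central

variable {I : k} {E : Type u} [Ring E] [Algebra k E] {z x w y : E} (h : Rels I z x w y)

include h

theorem Rels.cwwz : Commute (w * w) z := by
  show w * w * z = z * (w * w)
  have e : w * w * z - z * (w * w) = w * (z * w + w * z) - (z * w + w * z) * w := by
    noncomm_ring
  rw [← sub_eq_zero, e, h.zw]; simp

theorem Rels.czzw : Commute (z * z) w := by
  show z * z * w = w * (z * z)
  have e : z * z * w - w * (z * z) = z * (z * w + w * z) - (z * w + w * z) * z := by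
    noncomm_ring
  rw [← sub_eq_zero, e, h.zw]; simp

omit h in
theorem cww (w : E) : Commute (w * w) w := (Commute.refl w).mul_left (Commute.refl w)

theorem Rels.A2 : w * w * x - x * (w * w) = w * (x * z + z * x) - (x * z + z * x) * w := by
  have e : w * w * x - x * (w * w) = w * (x * w + w * x) - (x * w + w * x) * w := by
    noncomm_ring
  have e2 : w * (w * w) = w * w * w := by noncomm_ring
  rw [e, h.xw, mul_sub, sub_mul, mul_smul_comm, smul_mul_assoc, e2]
  abel

omit h in
theorem A1 : z * z * x - x * (z * z) = z * (x * z + z * x) - (x * z + z * x) * z := by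
  noncomm_ring

theorem Rels.A12 : (z * z * x - x * (z * z)) + (w * w * x - x * (w * w)) = 0 := by
  have J : z * (x * w + w * x) - (x * w + w * x) * z + (w * (x * z + z * x)
      - (x * z + z * x) * w) + (x * (z * w + w * z) - (z * w + w * z) * x) = 0 := by
    noncomm_ring
  rw [h.zw, mul_zero, zero_mul, sub_zero, add_zero, h.xw, mul_sub, sub_mul, mul_smul_comm,
    smul_mul_assoc, h.cwwz.eq] at J
  rw [h.A2, A1, ← J]
  abel

theorem Rels.czzx (h5 : (2 + 4 * I : k) ≠ 0) : Commute (z * z) x := by
  show z * z * x = x * (z * z)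
  have e : x * (x * x) = x * x * x := by noncomm_ring
  rw [h.xx, mul_sub, sub_mul, mul_neg, neg_mul, mul_smul_comm, mul_smul_comm, smul_mul_assoc,
    smul_mul_assoc] at e
  have e2 : (2 + 4 * I) • (z * z * x - x * (z * z)) = 0 := by
    have e3 : (2 + 4 * I) • (z * z * x - x * (z * z))
        = (-((3 + 2 * I) • (x * (z * z))) - (1 - 2 * I) • (x * (w * w)))
          - (-((3 + 2 * I) • (z * z * x)) - (1 - 2 * I) • (w * w * x))
          - (1 - 2 * I) • ((z * z * x - x * (z * z)) + (w * w * x - x * (w * w))) := by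
      module
    rw [e3, e, h.A12]; simp
  rw [← sub_eq_zero]
  have := congrArg (fun t => (2 + 4 * I : k)⁻¹ • t) e2
  simpa only [smul_smul, inv_mul_cancel₀ h5, one_smul, smul_zero] using this

theorem Rels.cwwx (h5 : (2 + 4 * I : k) ≠ 0) : Commute (w * w) x := by
  have := h.A12
  rw [(h.czzx h5).eq, sub_self, zero_add, sub_eq_zero] at this
  exact this

theorem Rels.cPz (h5 : (2 + 4 * I : k) ≠ 0) : Commute (x * z + z * x) z := by
  have := A1 (z := z) (x := x)
  rw [(h.czzx h5).eq, sub_self] at this
  exact (sub_eq_zero.1 this.symm).symm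

theorem Rels.cPw (h5 : (2 + 4 * I : k) ≠ 0) : Commute (x * z + z * x) w := by
  have := h.A2
  rw [(h.cwwx h5).eq, sub_self] at this
  exact (sub_eq_zero.1 this.symm).symm

theorem Rels.cxxz : Commute (x * x) z := by
  rw [h.xx]
  exact (((cww z).smul_left _).neg_left).sub_left (h.cwwz.smul_left _)

theorem Rels.cyyz : Commute (y * y) z := by
  rw [h.yy]
  exact (((cww z).smul_left _).neg_left).sub_left (h.cwwz.smul_left _)

theorem Rels.cPx : Commute (x * z + z * x) x := by
  have e : x * (x * z + z * x) - (x * z + z * x) * x = x * x * z - z * (x * x) := by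
    noncomm_ring
  rw [h.cxxz.eq, sub_self] at e
  exact (sub_eq_zero.1 e).symm

theorem Rels.czzy (h5 : (2 + 4 * I : k) ≠ 0) : Commute (z * z) y := by
  have e : z * z * y - y * (z * z) = z * (y * z + z * y) - (y * z + z * y) * z := by
    noncomm_ring
  have c : Commute (y * z + z * y) z := by
    rw [h.yz]
    exact (((h.cPz h5).smul_left _).neg_left).sub_left (h.cwwz.smul_left _)
  rw [c.eq, sub_self] at e
  exact sub_eq_zero.1 e

theorem Rels.cwwy (h5 : (2 + 4 * I : k) ≠ 0) : Commute (w * w) y := by
  have e : w * w * y - y * (w * w) = w * (y * w + w * y) - (y * w + w * y) * w := by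
    noncomm_ring
  have c : Commute (y * w + w * y) w := by
    rw [h.yw]
    exact (((h.cPw h5).smul_left _).add_left (h.czzw.smul_left _)).add_left
      ((cww w).smul_left _)
  rw [c.eq, sub_self] at e
  exact sub_eq_zero.1 e

theorem Rels.cPy (h5 : (2 + 4 * I : k) ≠ 0) (hI : I ≠ 0) : Commute (x * z + z * x) y := by
  have e : y * (y * z + z * y) - (y * z + z * y) * y = y * y * z - z * (y * y) := by
    noncomm_ring
  rw [h.cyyz.eq, sub_self, h.yz, mul_sub, sub_mul, mul_smul_comm, smul_mul_assoc,
    mul_neg, neg_mul, mul_smul_comm, smul_mul_assoc, (h.cwwy h5).eq, sub_sub_sub_cancel_right,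
    neg_sub_neg, ← smul_sub] at e
  have := congrArg (fun t => (I : k)⁻¹ • t) e
  simp only [smul_smul, inv_mul_cancel₀ hI, one_smul, smul_zero] at this
  exact sub_eq_zero.1 this

theorem Rels.cpx (h5 : (2 + 4 * I : k) ≠ 0) : Commute (x * y + y * x) x := by
  have e : x * (x * y + y * x) - (x * y + y * x) * x = x * x * y - y * (x * x) := by
    noncomm_ring
  have c : Commute (x * x) y := by
    rw [h.xx]
    exact (((h.czzy h5).smul_left _).neg_left).sub_left ((h.cwwy h5).smul_left _)
  rw [c.eq, sub_self] at e
  exact (sub_eq_zero.1 e).symm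

theorem Rels.cpy (h5 : (2 + 4 * I : k) ≠ 0) : Commute (x * y + y * x) y := by
  have e : y * (x * y + y * x) - (x * y + y * x) * y = y * y * x - x * (y * y) := by
    noncomm_ring
  have c : Commute (y * y) x := by
    rw [h.yy]
    exact (((h.czzx h5).smul_left _).neg_left).sub_left ((h.cwwx h5).smul_left _)
  rw [c.eq, sub_self] at e
  exact (sub_eq_zero.1 e).symm

theorem Rels.cpz (h5 : (2 + 4 * I : k) ≠ 0) (hI : I ≠ 0) : Commute (x * y + y * x) z := by
  have J : z * (x * y + y * x) - (x * y + y * x) * z
      = -(x * (y * z + z * y) - (y * z + z * y) * x)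
        - (y * (x * z + z * x) - (x * z + z * x) * y) := by
    noncomm_ring
  have c : Commute (y * z + z * y) x := by
    rw [h.yz]
    exact ((h.cPx.smul_left _).neg_left).sub_left ((h.cwwx h5).smul_left _)
  rw [c.eq, (h.cPy h5 hI).eq, sub_self, sub_self, neg_zero, sub_zero] at J
  exact (sub_eq_zero.1 J).symm

theorem Rels.cpw (h5 : (2 + 4 * I : k) ≠ 0) (hI : I ≠ 0) : Commute (x * y + y * x) w := by
  have J : w * (x * y + y * x) - (x * y + y * x) * w
      = -(x * (y * w + w * y) - (y * w + w * y) * x)
        - (y * (x * w + w * x) - (x * w + w * x) * y) := by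
    noncomm_ring
  have c : Commute (y * w + w * y) x := by
    rw [h.yw]
    exact ((h.cPx.smul_left _).add_left ((h.czzx h5).smul_left _)).add_left
      ((h.cwwx h5).smul_left _)
  have c' : Commute (x * w + w * x) y := by
    rw [h.xw]
    exact (h.cPy h5 hI).sub_left ((h.cwwy h5).smul_left _)
  rw [c.eq, c'.eq, sub_self, sub_self, neg_zero, sub_zero] at J
  exact (sub_eq_zero.1 J).symm

end Central

end Pool.Agent.J4H97.PM2
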