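import Pool.Agent.W506.PM.Main

set_option autoImplicit false

/-!
# A regular graded Clifford algebra with exactly two point modules: tables and presentation

The generators are numbered `0 = z`, `1 = x`, `2 = w`, `3 = y`.
-/

universe u

namespace Pool.Agent.J4H97.PM2

open Pool.Agent.W506.PM

/-- Tensors of the six relations (Gaussian integers). -/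
def RZ : Fin 6 → Fin 4 → Fin 4 → GaussianInt :=
  ![![![⟨0, 0⟩, ⟨0, 0⟩, ⟨1, 0⟩, ⟨0, 0⟩], ![⟨0, 0⟩, ⟨0, 0⟩, ⟨0, 0⟩, ⟨0, 0⟩],
      ![⟨1, 0⟩, ⟨0, 0⟩, ⟨0, 0⟩, ⟨0, 0⟩], ![⟨0, 0⟩, ⟨0, 0⟩, ⟨0, 0⟩, ⟨0, 0⟩]],
    ![![⟨0, 0⟩, ⟨-1, 0⟩, ⟨0, 0⟩, ⟨0, 0⟩], ![⟨-1, 0⟩, ⟨0, 0⟩, ⟨1, 0⟩, ⟨0, 0⟩],
      ![⟨0, 0⟩, ⟨1, 0⟩, ⟨2, 2⟩, ⟨0, 0⟩], ![⟨0, 0⟩, ⟨0, 0⟩, ⟨0, 0⟩, ⟨0, 0⟩]],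
    ![![⟨0, 0⟩, ⟨0, 1⟩, ⟨0, 0⟩, ⟨1, 0⟩], ![⟨0, 1⟩, ⟨0, 0⟩, ⟨0, 0⟩, ⟨0, 0⟩],
      ![⟨0, 0⟩, ⟨0, 0⟩, ⟨2, 0⟩, ⟨0, 0⟩], ![⟨1, 0⟩, ⟨0, 0⟩, ⟨0, 0⟩, ⟨0, 0⟩]],
    ![![⟨0, -2⟩, ⟨0, -1⟩, ⟨0, 0⟩, ⟨0, 0⟩], ![⟨0, -1⟩, ⟨0, 0⟩, ⟨0, 0⟩, ⟨0, 0⟩],
      ![⟨0, 0⟩, ⟨0, 0⟩, ⟨-4, 0⟩, ⟨1, 0⟩], ![⟨0, 0⟩, ⟨0, 0⟩, ⟨1, 0⟩, ⟨0, 0⟩]],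
    ![![⟨3, 2⟩, ⟨0, 0⟩, ⟨0, 0⟩, ⟨0, 0⟩], ![⟨0, 0⟩, ⟨1, 0⟩, ⟨0, 0⟩, ⟨0, 0⟩],
      ![⟨0, 0⟩, ⟨0, 0⟩, ⟨1, -2⟩, ⟨0, 0⟩], ![⟨0, 0⟩, ⟨0, 0⟩, ⟨0, 0⟩, ⟨0, 0⟩]],
    ![![⟨2, 0⟩, ⟨0, 0⟩, ⟨0, 0⟩, ⟨0, 0⟩], ![⟨0, 0⟩, ⟨0, 0⟩, ⟨0, 0⟩, ⟨0, 0⟩],
      ![⟨0, 0⟩, ⟨0, 0⟩, ⟨2, -2⟩, ⟨0, 0⟩], ![⟨0, 0⟩, ⟨0, 0⟩, ⟨0, 0⟩, ⟨1, 0⟩]]]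

/-- The four symmetric matrices (Gaussian integers). -/
def MZ : Fin 4 → Fin 4 → Fin 4 → GaussianInt :=
  ![![![⟨0, 0⟩, ⟨0, 0⟩, ⟨0, 0⟩, ⟨0, 0⟩], ![⟨0, 0⟩, ⟨0, 0⟩, ⟨0, 0⟩, ⟨1, 0⟩],
      ![⟨0, 0⟩, ⟨0, 0⟩, ⟨0, 0⟩, ⟨0, 0⟩], ![⟨0, 0⟩, ⟨1, 0⟩, ⟨0, 0⟩, ⟨0, 0⟩]],
    ![![⟨0, 0⟩, ⟨1, 0⟩, ⟨0, 0⟩, ⟨0, -1⟩], ![⟨1, 0⟩, ⟨0, 0⟩, ⟨1, 0⟩, ⟨0, 0⟩],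
      ![⟨0, 0⟩, ⟨1, 0⟩, ⟨0, 0⟩, ⟨0, 1⟩], ![⟨0, -1⟩, ⟨0, 0⟩, ⟨0, 1⟩, ⟨0, 0⟩]],
    ![![⟨2, 0⟩, ⟨0, 0⟩, ⟨0, 0⟩, ⟨0, 0⟩], ![⟨0, 0⟩, ⟨-6, -4⟩, ⟨0, 0⟩, ⟨0, 0⟩],
      ![⟨0, 0⟩, ⟨0, 0⟩, ⟨0, 0⟩, ⟨0, 2⟩], ![⟨0, 0⟩, ⟨0, 0⟩, ⟨0, 2⟩, ⟨-4, 0⟩]],
    ![![⟨0, 0⟩, ⟨0, 2⟩, ⟨0, 0⟩, ⟨0, 0⟩], ![⟨0, 2⟩, ⟨-2, 4⟩, ⟨-2, 0⟩, ⟨0, 0⟩],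
      ![⟨0, 0⟩, ⟨-2, 0⟩, ⟨2, 0⟩, ⟨2, 0⟩], ![⟨0, 0⟩, ⟨0, 0⟩, ⟨2, 0⟩, ⟨-4, 4⟩]]]

/-- The elements `y_l` in terms of the products `x_a x_b`. -/
def NZ : Fin 4 → Fin 4 → Fin 4 → GaussianInt :=
  ![![![⟨0, 0⟩, ⟨0, 0⟩, ⟨0, 0⟩, ⟨0, 0⟩], ![⟨0, 0⟩, ⟨0, 0⟩, ⟨0, 0⟩, ⟨1, 0⟩],
      ![⟨0, 0⟩, ⟨0, 0⟩, ⟨0, 0⟩, ⟨0, 0⟩], ![⟨0, 0⟩, ⟨1, 0⟩, ⟨0, 0⟩, ⟨0, 0⟩]],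
    ![![⟨0, 0⟩, ⟨1, 0⟩, ⟨0, 0⟩, ⟨0, 0⟩], ![⟨1, 0⟩, ⟨0, 0⟩, ⟨0, 0⟩, ⟨0, 0⟩],
      ![⟨0, 0⟩, ⟨0, 0⟩, ⟨0, -2⟩, ⟨0, 0⟩], ![⟨0, 0⟩, ⟨0, 0⟩, ⟨0, 0⟩, ⟨0, 0⟩]],
    ![![⟨1, 0⟩, ⟨0, 0⟩, ⟨0, 0⟩, ⟨0, 0⟩], ![⟨0, 0⟩, ⟨0, 0⟩, ⟨0, 0⟩, ⟨0, 0⟩],
      ![⟨0, 0⟩, ⟨0, 0⟩, ⟨0, 0⟩, ⟨0, 0⟩], ![⟨0, 0⟩, ⟨0, 0⟩, ⟨0, 0⟩, ⟨0, 0⟩]],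
    ![![⟨0, 0⟩, ⟨0, 0⟩, ⟨0, 0⟩, ⟨0, 0⟩], ![⟨0, 0⟩, ⟨0, 0⟩, ⟨0, 0⟩, ⟨0, 0⟩],
      ![⟨0, 0⟩, ⟨0, 0⟩, ⟨1, 0⟩, ⟨0, 0⟩], ![⟨0, 0⟩, ⟨0, 0⟩, ⟨0, 0⟩, ⟨0, 0⟩]]]

/-- The matrix of the middle pairing. -/
def GZ : Fin 6 → Fin 6 → GaussianInt :=
  ![![⟨-33, 7⟩, ⟨27, -6⟩, ⟨-6, -8⟩, ⟨-6, 2⟩, ⟨9, -7⟩, ⟨2, -4⟩],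
    ![⟨27, -6⟩, ⟨-9, 7⟩, ⟨0, 0⟩, ⟨0, 0⟩, ⟨-3, 4⟩, ⟨0, 0⟩],
    ![⟨-6, -8⟩, ⟨0, 0⟩, ⟨2, -4⟩, ⟨2, -4⟩, ⟨0, 0⟩, ⟨1, -2⟩],
    ![⟨-6, 2⟩, ⟨0, 0⟩, ⟨2, -4⟩, ⟨2, -4⟩, ⟨0, 0⟩, ⟨1, -2⟩],
    ![⟨9, -7⟩, ⟨-3, 4⟩, ⟨0, 0⟩, ⟨0, 0⟩, ⟨-1, 3⟩, ⟨0, 0⟩],
    ![⟨2, -4⟩, ⟨0, 0⟩, ⟨1, -2⟩, ⟨1, -2⟩, ⟨0, 0⟩, ⟨3, -1⟩]]

/-- Ten times the inverse of `GZ`. -/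
def HZ : Fin 6 → Fin 6 → GaussianInt :=
  ![![⟨0, 0⟩, ⟨0, 0⟩, ⟨0, 1⟩, ⟨0, -1⟩, ⟨0, 0⟩, ⟨0, 0⟩],
    ![⟨0, 0⟩, ⟨-2, -2⟩, ⟨-2, 2⟩, ⟨2, -2⟩, ⟨2, 4⟩, ⟨0, 0⟩],
    ![⟨0, 1⟩, ⟨-2, 2⟩, ⟨2, 4⟩, ⟨-2, -2⟩, ⟨2, 1⟩, ⟨-2, -2⟩],
    ![⟨0, -1⟩, ⟨2, -2⟩, ⟨-2, -2⟩, ⟨4, 2⟩, ⟨-2, -1⟩, ⟨0, 2⟩],
    ![⟨0, 0⟩, ⟨2, 4⟩, ⟨2, 1⟩, ⟨-2, -1⟩, ⟨-2, -10⟩, ⟨0, 0⟩],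
    ![⟨0, 0⟩, ⟨0, 0⟩, ⟨-2, -2⟩, ⟨0, 2⟩, ⟨0, 0⟩, ⟨4, 0⟩]]

/-- Positions of the leading entries of the six relations. -/
def ea' : Fin 6 → Fin 4 := ![0, 1, 3, 3, 1, 3]
/-- Positions of the leading entries of the six relations. -/
def eb' : Fin 6 → Fin 4 := ![2, 2, 0, 2, 1, 3]

theorem RZ_symm : ∀ c a b, RZ c a b = RZ c b a := by decide +kernel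
theorem NZ_symm : ∀ c a b, NZ c a b = NZ c b a := by decide +kernel
theorem MZ_symm : ∀ c a b, MZ c a b = MZ c b a := by decide +kernel

theorem RZ_MZ : ∀ c l, ∑ a, ∑ b, RZ c a b * MZ l a b = 0 := by decide +kernel

theorem NZ_MZ : ∀ l m, ∑ a, ∑ b, NZ l a b * MZ m a b = if l = m then 2 else 0 := by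
  decide +kernel

/-- The tensor of `x_i x_j + x_j x_i - sum_l M_l(i,j) y_l`. -/
def LZ (i j a b : Fin 4) : GaussianInt :=
  (if a = i ∧ b = j then 1 else 0) + (if a = j ∧ b = i then 1 else 0) - ∑ l, MZ l i j * NZ l a b

theorem LZ_eq : ∀ i j a b, LZ i j a b = ∑ c, LZ i j (ea' c) (eb' c) * RZ c a b := by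
  decide +kernel

theorem HZ_GZ : ∀ i j, ∑ l, HZ i l * GZ l j = if i = j then 10 else 0 := by decide +kernel

/-- The middle tensor of the fourth syzygy. -/
def TZ (j l b a : Fin 4) : GaussianInt :=
  ∑ i, ∑ i', GZ i i' * RZ i' j b * RZ i a l

theorem TZ_eq : ∀ j l b a, TZ j l b a = ∑ c, TZ j l (ea' c) (eb' c) * RZ c b a := by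
  decide +kernel

end Pool.Agent.J4H97.PM2
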