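import Pool.Agent.J4H97.PM2.B

set_option autoImplicit false

/-!
# The graded pieces and the Koszul complexes
-/

universe u

namespace Pool.Agent.J4H97.PM2

open Pool.Agent.W506.PM

variable {k : Type u} [Field k] (φ : GaussianInt →+* k)

/-- the grading of our algebra -/
noncomputable abbrev gA : ℕ → Submodule k (AA φ) := ggr k (mu1 k) (MM φ)

theorem gmul {d e : ℕ} {x y : AA φ} (hx : x ∈ gA φ d) (hy : y ∈ gA φ e) :
    x * y ∈ gA φ (d + e) := SetLike.mul_mem_graded hx hy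

theorem gpow {d : ℕ} {x : AA φ} (hx : x ∈ gA φ d) (n : ℕ) : x ^ n ∈ gA φ (n * d) := by
  simpa using SetLike.pow_mem_graded (A := gA φ) n hx

theorem ggm (j : Fin 4) : gg φ j ∈ gA φ 1 := gx_mem _ _ j

theorem cP_mem : cP φ ∈ gA φ 2 := by
  have h1 : gg φ 1 * gg φ 0 ∈ gA φ (1 + 1) := gmul φ (ggm φ 1) (ggm φ 0)
  have h2 : gg φ 0 * gg φ 1 ∈ gA φ (1 + 1) := gmul φ (ggm φ 0) (ggm φ 1)
  unfold cP
  exact Submodule.add_mem _ h1 h2
theorem cp_mem : cp φ ∈ gA φ 2 := by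
  have h1 : gg φ 1 * gg φ 3 ∈ gA φ (1 + 1) := gmul φ (ggm φ 1) (ggm φ 3)
  have h2 : gg φ 3 * gg φ 1 ∈ gA φ (1 + 1) := gmul φ (ggm φ 3) (ggm φ 1)
  unfold cp
  exact Submodule.add_mem _ h1 h2

theorem BB_mem_gA (i : Fin 4 → ℕ) : BB φ i ∈ gA φ (deg4 i) := by
  have h := gmul φ (gpow φ (cP_mem φ) (i 1 / 2)) (gmul φ (gpow φ (cp_mem φ) (i 3 / 2))
    (gmul φ (gpow φ (ggm φ 3) (i 3 % 2)) (gmul φ (gpow φ (ggm φ 1) (i 1 % 2))
      (gmul φ (gpow φ (ggm φ 0) (i 0)) (gpow φ (ggm φ 2) (i 2))))))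
  have e : i 1 / 2 * 2 + (i 3 / 2 * 2 + (i 3 % 2 * 1 + (i 1 % 2 * 1 + (i 0 * 1 + i 2 * 1))))
      = deg4 i := by
    unfold deg4; omega
  rw [e] at h
  exact h

theorem proj_BB (e : ℕ) (j : Fin 4 → ℕ) : GradedAlgebra.proj (gA φ) e (BB φ j)
    = if deg4 j = e then BB φ j else 0 := by
  rw [GradedAlgebra.proj_apply]
  split_ifs with h
  · subst h
    exact DirectSum.decompose_of_mem_same _ (BB_mem_gA φ j)
  · exact DirectSum.decompose_of_mem_ne _ (BB_mem_gA φ j) h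

variable (h2 : (2 : k) ≠ 0) (h5 : (2 + 4 * im φ : k) ≠ 0)

theorem repr_eq_zero {d : ℕ} {x : AA φ} (hx : x ∈ gA φ d) (i : Fin 4 → ℕ)
    (hid : deg4 i ≠ d) : (bas φ h2 h5).repr x i = 0 := by
  have key : ((bas φ h2 h5).coord i).comp (GradedAlgebra.proj (gA φ) d) = 0 := by
    apply (bas φ h2 h5).ext
    intro j
    rw [LinearMap.comp_apply, bas_apply, proj_BB]
    split_ifs with h
    · rw [← bas_apply φ h2 h5, Module.Basis.coord_apply, Module.Basis.repr_self,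
        Finsupp.single_eq_of_ne]
      · rfl
      · rintro rfl; exact hid h
    · rw [map_zero]; rfl
  have h1 := LinearMap.congr_fun key x
  rw [LinearMap.comp_apply, GradedAlgebra.proj_apply, DirectSum.decompose_of_mem_same _ hx] at h1
  exact h1

include h2 h5

theorem gA_eq_span (d : ℕ) :
    gA φ d = Submodule.span k (Set.range fun i : mon d => BB φ i) := by
  apply le_antisymm
  · intro x hx
    rw [← (bas φ h2 h5).linearCombination_repr x, Finsupp.linearCombination_apply, Finsupp.sum]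
    apply Submodule.sum_mem
    intro i hi'
    apply Submodule.smul_mem
    rw [bas_apply]
    have hid : deg4 i = d := by
      by_contra h
      exact (Finsupp.mem_support_iff.1 hi') (repr_eq_zero φ h2 h5 hx i h)
    exact Submodule.subset_span ⟨⟨i, (mem_mon d i).2 hid⟩, rfl⟩
  · rw [Submodule.span_le]
    rintro _ ⟨⟨i, hi'⟩, rfl⟩
    have := BB_mem_gA φ i
    rw [(mem_mon d i).1 hi'] at this
    exact this

theorem finrank_gA (d : ℕ) : Module.finrank k (gA φ d) = (d + 3).choose 3 := by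
  rw [gA_eq_span φ h2 h5, finrank_span_eq_card]
  · rw [Fintype.card_coe, card_mon]
  · exact (linearIndependent_BB φ).comp _ Subtype.val_injective

theorem finite_gA (d : ℕ) : Module.Finite k (gA φ d) := by
  rw [gA_eq_span φ h2 h5]
  exact Module.Finite.span_of_finite k (Set.finite_range _)

theorem conn_gA : IsConnectedGraded (gA φ) where
  graded := inferInstance
  internal := DirectSum.Decomposition.isInternal _
  connected := by rw [finrank_gA φ h2 h5]; rfl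
  finite := finite_gA φ h2 h5

omit h2 h5 in
/-- shift in the exponent of `w` -/
def sh2 (i : Fin 4 → ℕ) : Fin 4 → ℕ := ![i 0, i 1, i 2 + 2, i 3]

omit h2 h5 in
theorem sh2_inj : Function.Injective sh2 := by
  intro i j h
  have h0 : i 0 = j 0 := congrFun h 0
  have h1 : i 1 = j 1 := congrFun h 1
  have h2 : i 2 + 2 = j 2 + 2 := congrFun h 2
  have h3 : i 3 = j 3 := congrFun h 3
  funext l; fin_cases l
  · exact h0
  · exact h1
  · show i 2 = j 2; omega
  · exact h3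

omit h2 h5 in
theorem sh_sh2 (i j : Fin 4 → ℕ) (h : sh0 j = sh2 i) : ∃ i', i = sh0 i' := by
  have h0 : j 0 + 2 = i 0 := congrFun h 0
  refine ⟨![j 0, i 1, i 2, i 3], ?_⟩
  funext l; fin_cases l
  · exact h0.symm
  · rfl
  · rfl
  · rfl

omit h2 h5 in
theorem cen_BB (c : AA φ) (hc : ∀ u, Commute c u) (e : Fin 4 → ℕ) : c * BB φ e
    = cP φ ^ (e 1 / 2) * (cp φ ^ (e 3 / 2) * (gg φ 3 ^ (e 3 % 2) * (gg φ 1 ^ (e 1 % 2) *
      (c * (gg φ 0 ^ e 0 * gg φ 2 ^ e 2))))) := by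
  rw [BB, ← mul_assoc, (hc _).eq, mul_assoc, ← mul_assoc c, (hc _).eq, mul_assoc, ← mul_assoc c,
    (hc _).eq, mul_assoc, ← mul_assoc c, (hc _).eq, mul_assoc]

theorem Z_BB (e : Fin 4 → ℕ) : gg φ 0 * gg φ 0 * BB φ e = BB φ (sh0 e) := by
  rw [cen_BB φ _ (cenZ φ h2 h5)]
  show _ = cP φ ^ (e 1 / 2) * (cp φ ^ (e 3 / 2) * (gg φ 3 ^ (e 3 % 2) * (gg φ 1 ^ (e 1 % 2) *
      (gg φ 0 ^ (e 0 + 2) * gg φ 2 ^ e 2))))
  rw [add_comm (e 0) 2, pow_add, sq]
  simp only [mul_assoc]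

theorem W_BB (e : Fin 4 → ℕ) : gg φ 2 * gg φ 2 * BB φ e = BB φ (sh2 e) := by
  rw [cen_BB φ _ (cenW φ h2 h5)]
  show _ = cP φ ^ (e 1 / 2) * (cp φ ^ (e 3 / 2) * (gg φ 3 ^ (e 3 % 2) * (gg φ 1 ^ (e 1 % 2) *
      (gg φ 0 ^ (e 0) * gg φ 2 ^ (e 2 + 2)))))
  rw [add_comm (e 2) 2, pow_add, sq, ← mul_assoc (gg φ 2 * gg φ 2), (cenW φ h2 h5 _).eq]
  simp only [mul_assoc]

theorem reg_left' : (∀ h : AA φ, gg φ 0 * gg φ 0 * h = 0 → h = 0) ∧
    (∀ h h' : AA φ, gg φ 2 * gg φ 2 * h = gg φ 0 * gg φ 0 * h' →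
      ∃ h'', h = gg φ 0 * gg φ 0 * h'') := by
  have hT1 : ∀ i, (LinearMap.mulLeft k (gg φ 0 * gg φ 0)) (bas φ h2 h5 i)
      = (1 : k) • bas φ h2 h5 (sh0 i) := by
    intro i; rw [bas_apply, bas_apply, one_smul]; exact Z_BB φ h2 h5 i
  have hT2 : ∀ i, (LinearMap.mulLeft k (gg φ 2 * gg φ 2)) (bas φ h2 h5 i)
      = (1 : k) • bas φ h2 h5 (sh2 i) := by
    intro i; rw [bas_apply, bas_apply, one_smul]; exact W_BB φ h2 h5 i
  constructor
  · intro h h0
    exact shift_inj (bas φ h2 h5) _ sh0 sh0_inj (fun _ => 1) (fun _ => one_ne_zero) hT1 h h0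
  · intro h h' h0
    exact shift_reg (bas φ h2 h5) _ _ sh0 sh2 sh2_inj (fun _ => 1) (fun _ => 1)
      (fun _ => one_ne_zero) (fun _ => one_ne_zero) hT1 hT2 sh_sh2 h h' h0

theorem reg_right' : (∀ h : AA φ, h * (gg φ 0 * gg φ 0) = 0 → h = 0) ∧
    (∀ h h' : AA φ, h * (gg φ 2 * gg φ 2) = h' * (gg φ 0 * gg φ 0) →
      ∃ h'', h = h'' * (gg φ 0 * gg φ 0)) := by
  obtain ⟨r1, r2⟩ := reg_left' φ h2 h5
  constructor
  · intro h h0
    rw [← (cenZ φ h2 h5 h).eq] at h0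
    exact r1 h h0
  · intro h h' h0
    rw [← (cenZ φ h2 h5 h').eq, ← (cenW φ h2 h5 h).eq] at h0
    obtain ⟨h'', e⟩ := r2 h h' h0
    exact ⟨h'', by rw [e, (cenZ φ h2 h5 h'').eq]⟩

omit h2 h5

/-- the matrix `m` -/
noncomputable def mm (i : Fin 6) (l : Fin 4) : AA φ := rowL (gg φ) (rr φ) i l

/-- the matrix `m'` -/
noncomputable def mm' (i : Fin 6) (l : Fin 4) : AA φ := ∑ i', φ (GZ i i') • mm φ i' l

theorem mm_eq (i : Fin 6) (l : Fin 4) : mm φ i l = ∑ j, rr φ i l j • gg φ j := by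
  rw [mm, rowL]
  refine Finset.sum_congr rfl fun j _ => ?_
  rw [rr, rr, RZ_symm]

theorem rowR_eq (i : Fin 6) (l : Fin 4) :
    rowL (fun j => MulOpposite.op (gg φ j)) (fun i j l => rr φ i l j) i l
      = MulOpposite.op (mm φ i l) := by
  rw [rowL, mm_eq, Finset.op_sum]
  refine Finset.sum_congr rfl fun j _ => ?_
  rw [MulOpposite.op_smul]

include h2 in
theorem mm_x (i : Fin 6) : ∑ j, mm φ i j * gg φ j = 0 := rowL_mul (isPres φ h2) i

include h2 in
theorem x_mm (i : Fin 6) : ∑ j, gg φ j * mm φ i j = 0 := by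
  have := rowL_mul (isPres φ h2).op i
  simp only [rowR_eq, ← MulOpposite.op_mul, ← Finset.op_sum] at this
  exact MulOpposite.op_injective this

include h2 in
theorem x_mm' (i : Fin 6) : ∑ j, gg φ j * mm' φ i j = 0 := by
  simp only [mm', Finset.mul_sum, mul_smul_comm]
  rw [Finset.sum_comm]
  apply Finset.sum_eq_zero
  intro i' _
  rw [← Finset.smul_sum, x_mm φ h2, smul_zero]

include h2 in
theorem mm'_mm (j l : Fin 4) : ∑ i, mm' φ i j * mm φ i l = 0 := by
  have e1 : ∑ i, mm' φ i j * mm φ i l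
      = ∑ b, ∑ a, φ (TZ j l b a) • (gg φ b * gg φ a) := by
    have h : ∀ i, mm φ i l = ∑ a, rr φ i a l • gg φ a := fun i => rfl
    simp only [mm', h, mm_eq φ _ j, Finset.smul_sum, Finset.sum_mul, Finset.mul_sum,
      smul_mul_assoc, mul_smul_comm, smul_smul, TZ, map_sum, map_mul, Finset.sum_smul, rr]
    have e : ∀ f : Fin 6 → Fin 4 → Fin 6 → Fin 4 → AA φ,
        ∑ i, ∑ a, ∑ i', ∑ b, f i a i' b = ∑ b, ∑ a, ∑ i, ∑ i', f i a i' b := by
      intro f
      calc _ = ∑ i, ∑ a, ∑ b, ∑ i', f i a i' b :=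
            Finset.sum_congr rfl fun i _ => Finset.sum_congr rfl fun a _ => Finset.sum_comm
        _ = ∑ b, ∑ i, ∑ a, ∑ i', f i a i' b := Finset.sum_comm_cycle
        _ = _ := Finset.sum_congr rfl fun b _ => Finset.sum_comm
    rw [e]
    refine Finset.sum_congr rfl fun b _ => Finset.sum_congr rfl fun a _ =>
      Finset.sum_congr rfl fun i _ => Finset.sum_congr rfl fun i' _ => ?_
    congr 1
    ring
  rw [e1]
  have : ∀ b a, φ (TZ j l b a) • (gg φ b * gg φ a)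
      = ∑ c, φ (TZ j l (ea' c) (eb' c)) • (rr φ c b a • (gg φ b * gg φ a)) := by
    intro b a
    conv_lhs => rw [TZ_eq]
    simp only [map_sum, map_mul, Finset.sum_smul, smul_smul, rr]
  simp only [this]
  rw [Finset.sum_comm_cycle]
  apply Finset.sum_eq_zero
  intro c _
  simp only [← Finset.smul_sum]
  rw [rel_gg φ h2 c, smul_zero]

include h2 in
theorem exL1 (f : Fin 4 → AA φ) (hf : ∑ j, f j * gg φ j = 0) :
    ∃ g : Fin 6 → AA φ, ∀ j, f j = ∑ i, g i * mm φ i j :=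
  ex1_of_pres (isPres φ h2) f hf

include h2 in
theorem exR1 (h10 : (10 : k) ≠ 0) (b : Fin 4 → AA φ) (hb : ∑ j, gg φ j * b j = 0) :
    ∃ c : Fin 6 → AA φ, ∀ j, b j = ∑ i, mm' φ i j * c i := by
  obtain ⟨g, hg⟩ := ex1_of_pres (isPres φ h2).op (fun j => MulOpposite.op (b j)) (by
    simp only [← MulOpposite.op_mul, ← Finset.op_sum]
    rw [show (∑ i, gx k (mu1 k) (MM φ) i * b i) = 0 from hb, MulOpposite.op_zero])
  have hn : ∀ j, b j = ∑ i, mm φ i j * (g i).unop := by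
    intro j
    have := congrArg MulOpposite.unop (hg j)
    simpa only [rowR_eq, MulOpposite.unop_op, Finset.unop_sum, MulOpposite.unop_mul] using this
  have hH : ∀ i j, mm φ i j = ∑ l, ((10 : k)⁻¹ * φ (HZ i l)) • mm' φ l j := by
    intro i j
    simp only [mm', Finset.smul_sum, smul_smul]
    rw [Finset.sum_comm]
    simp only [← Finset.sum_smul, mul_assoc, ← Finset.mul_sum, ← map_mul, ← map_sum]
    simp only [HZ_GZ]
    rw [Finset.sum_eq_single i]
    · rw [if_pos rfl, map_ofNat, inv_mul_cancel₀ h10, one_smul]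
    · intro l _ hl
      rw [if_neg (Ne.symm hl), map_zero, mul_zero, zero_smul]
    · simp
  refine ⟨fun l => ∑ i, ((10 : k)⁻¹ * φ (HZ i l)) • (g i).unop, fun j => ?_⟩
  rw [hn j]
  simp only [hH, Finset.sum_mul, Finset.mul_sum, smul_mul_assoc, mul_smul_comm]
  rw [Finset.sum_comm]

include h2 h5

theorem x_X (j : Fin 4) : gg φ j * (gg φ 0 * gg φ 0)
    = (1 : k) • (gg φ 0 * gg φ 0 * gg φ j) := by
  rw [one_smul, (cenZ φ h2 h5 _).eq]

theorem XZ_comm : gg φ 0 * gg φ 0 * (gg φ 2 * gg φ 2)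
    = gg φ 2 * gg φ 2 * (gg φ 0 * gg φ 0) := (cenZ φ h2 h5 _).eq

theorem exL34 (h10 : (10 : k) ≠ 0) :
    (∀ f : Fin 4 → AA φ, (∀ i, ∑ j, f j * mm' φ i j = 0) →
      ∃ h : AA φ, ∀ j, f j = h * gg φ j) ∧
    (∀ h : AA φ, (∀ j, h * gg φ j = 0) → h = 0) :=
  ex34 (gg φ) (mm' φ) (exR1 φ h2 h10) (fun _ => 1) (x_X φ h2 h5) (XZ_comm φ h2 h5)
    (reg_right' φ h2 h5).1 (reg_right' φ h2 h5).2

theorem exR34 : (∀ f : Fin 4 → (AA φ)ᵐᵒᵖ,
      (∀ i, ∑ j, f j * MulOpposite.op (mm φ i j) = 0) →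
      ∃ h : (AA φ)ᵐᵒᵖ, ∀ j, f j = h * MulOpposite.op (gg φ j)) ∧
    (∀ h : (AA φ)ᵐᵒᵖ, (∀ j, h * MulOpposite.op (gg φ j) = 0) → h = 0) := by
  refine ex34 (k := k) (fun j => MulOpposite.op (gg φ j))
    (fun i j => MulOpposite.op (mm φ i j)) ?_ (fun _ => 1) ?_ ?_ ?_ ?_
  · intro b hb
    obtain ⟨g, hg⟩ := exL1 φ h2 (fun j => (b j).unop) (by
      have := congrArg MulOpposite.unop hb
      simpa only [Finset.unop_sum, MulOpposite.unop_mul, MulOpposite.unop_op,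
        MulOpposite.unop_zero] using this)
    refine ⟨fun i => MulOpposite.op (g i), fun j => ?_⟩
    have := congrArg MulOpposite.op (hg j)
    simpa only [Finset.op_sum, MulOpposite.op_mul, MulOpposite.op_unop] using this
  · intro j
    have h3 : gg φ 0 * gg φ 0 * gg φ j = gg φ j * (gg φ 0 * gg φ 0) := (cenZ φ h2 h5 _).eq
    have := congrArg MulOpposite.op h3
    rw [one_smul]
    simpa only [MulOpposite.op_mul, mul_assoc] using this
  · have := congrArg MulOpposite.op (XZ_comm φ h2 h5).symm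
    simpa only [MulOpposite.op_mul] using this
  · intro h hh
    have := congrArg MulOpposite.unop hh
    simp only [MulOpposite.unop_mul, MulOpposite.unop_op, MulOpposite.unop_zero] at this
    exact MulOpposite.unop_injective ((reg_left' φ h2 h5).1 _ this)
  · intro h h' hh
    have := congrArg MulOpposite.unop hh
    simp only [MulOpposite.unop_mul, MulOpposite.unop_op] at this
    obtain ⟨z, hz⟩ := (reg_left' φ h2 h5).2 _ _ this
    refine ⟨MulOpposite.op z, ?_⟩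
    apply MulOpposite.unop_injective
    simpa only [MulOpposite.unop_mul, MulOpposite.unop_op] using hz

omit h2 h5 in
theorem mm_mem (i : Fin 6) (l : Fin 4) : mm φ i l ∈ gA φ 1 := by
  rw [mm, rowL]
  exact Submodule.sum_mem _ fun j _ => Submodule.smul_mem _ _ (ggm φ j)

omit h2 h5 in
theorem mm'_mem (i : Fin 6) (l : Fin 4) : mm' φ i l ∈ gA φ 1 :=
  Submodule.sum_mem _ fun j _ => Submodule.smul_mem _ _ (mm_mem φ j l)

theorem leftKos (h10 : (10 : k) ≠ 0) : LeftKos (gg φ) (mm φ) (mm' φ) :=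
  Pool.Agent.W655.PM.eul k (AA φ) (gA φ) (gg φ) (mm φ) (mm' φ)
    (conn_gA φ h2 h5) (finrank_gA φ h2 h5) (ggm φ) (mm_mem φ) (mm'_mem φ)
    (fun n a ha => gen1 (conn_gA φ h2 h5) _ (adjoin_gg φ h2) (ggm φ) n a ha)
    (mm_x φ h2) (mm'_mm φ h2) (x_mm' φ h2) (exL1 φ h2)
    (exL34 φ h2 h5 h10).1 (exL34 φ h2 h5 h10).2

theorem rightKos (h10 : (10 : k) ≠ 0) :
    LeftKos (fun j => MulOpposite.op (gg φ j)) (fun i j => MulOpposite.op (mm' φ i j))
      (fun i j => MulOpposite.op (mm φ i j)) := by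
  apply Pool.Agent.W655.PM.eul k (AA φ)ᵐᵒᵖ (opGr (gA φ)) _ _ _
    (conn_gA φ h2 h5).op
  · intro n
    rw [finrank_opGr, finrank_gA φ h2 h5]
  · intro j; rw [mem_opGr]; exact ggm φ j
  · intro i j; rw [mem_opGr]; exact mm'_mem φ i j
  · intro i j; rw [mem_opGr]; exact mm_mem φ i j
  · intro n a ha
    exact gen1 (conn_gA φ h2 h5).op _ (isPres φ h2).op.gen
      (fun j => by rw [mem_opGr]; exact ggm φ j) n a ha
  · intro i
    have := congrArg MulOpposite.op (x_mm' φ h2 i)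
    simpa only [Finset.op_sum, MulOpposite.op_mul, MulOpposite.op_zero] using this
  · intro j l
    have := congrArg MulOpposite.op (mm'_mm φ h2 l j)
    simpa only [Finset.op_sum, MulOpposite.op_mul, MulOpposite.op_zero] using this
  · intro i
    have := congrArg MulOpposite.op (mm_x φ h2 i)
    simpa only [Finset.op_sum, MulOpposite.op_mul, MulOpposite.op_zero] using this
  · intro f hf
    obtain ⟨g, hg⟩ := exR1 φ h2 h10 (fun j => (f j).unop) (by
      have := congrArg MulOpposite.unop hf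
      simpa only [Finset.unop_sum, MulOpposite.unop_mul, MulOpposite.unop_op,
        MulOpposite.unop_zero] using this)
    refine ⟨fun i => MulOpposite.op (g i), fun j => ?_⟩
    have := congrArg MulOpposite.op (hg j)
    simpa only [Finset.op_sum, MulOpposite.op_mul, MulOpposite.op_unop] using this
  · exact (exR34 φ h2 h5).1
  · exact (exR34 φ h2 h5).2

end Pool.Agent.J4H97.PM2
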