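import Pool.Agent.J4H97.PM2.C

set_option autoImplicit false

/-!
# The model: a module of rank sixteen over the polynomial ring in four variables
-/

universe u

namespace Pool.Agent.J4H97.PM2

open Pool.Agent.W506.PM MvPolynomial

section Double

variable {S : Type u} [CommRing S] {N : Type u} [AddCommGroup N] [Module S N]

/-- the new generator, of square `q` -/
def up (N : Type u) [AddCommGroup N] [Module S N] (q : S) : Module.End S (N × N) where
  toFun p := (q • p.2, p.1)
  map_add' _ _ := by simp
  map_smul' c p := by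
    simp only [Prod.smul_snd, Prod.smul_fst, RingHom.id_apply, Prod.smul_mk]
    rw [smul_comm]

/-- an old generator, with anticommutator `b` with the new one -/
def dn (x : Module.End S N) (b : S) : Module.End S (N × N) where
  toFun p := (x p.1 + b • p.2, -x p.2)
  map_add' p q := by
    simp only [Prod.fst_add, Prod.snd_add, map_add, smul_add, Prod.mk_add_mk, neg_add]
    congr 1; abel
  map_smul' c p := by
    simp only [Prod.smul_snd, Prod.smul_fst, RingHom.id_apply, Prod.smul_mk, map_smul, smul_add,
      smul_neg]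
    rw [smul_comm b c]

theorem up_apply (q : S) (p : N × N) : up N q p = (q • p.2, p.1) := rfl
theorem dn_apply (x : Module.End S N) (b : S) (p : N × N) :
    dn x b p = (x p.1 + b • p.2, -x p.2) := rfl

theorem up_up (q : S) : up N q * up N q = q • 1 := by
  apply LinearMap.ext
  intro p
  simp [up_apply, Module.End.mul_apply]
  rfl

theorem dn_dn (x x' : Module.End S N) (b b' c : S) (h : x * x' + x' * x = c • 1) :
    dn x b * dn x' b' + dn x' b' * dn x b = c • 1 := by
  apply LinearMap.ext
  intro p
  have h1 := LinearMap.congr_fun h p.1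
  have h2 := LinearMap.congr_fun h p.2
  simp only [LinearMap.add_apply, Module.End.mul_apply, LinearMap.smul_apply,
    Module.End.one_apply] at h1 h2
  simp only [LinearMap.add_apply, Module.End.mul_apply, LinearMap.smul_apply, dn_apply,
    Module.End.one_apply, map_add, map_smul, map_neg, smul_neg, neg_neg, Prod.mk_add_mk]
  ext
  · simp only [Prod.smul_fst, ← h1]
    abel
  · simp only [Prod.smul_snd, ← h2]

theorem dn_sq (x : Module.End S N) (b c : S) (h : x * x = c • 1) :
    dn x b * dn x b = c • 1 := by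
  apply LinearMap.ext
  intro p
  have h1 := LinearMap.congr_fun h p.1
  have h2 := LinearMap.congr_fun h p.2
  simp only [Module.End.mul_apply, LinearMap.smul_apply, Module.End.one_apply] at h1 h2
  simp only [Module.End.mul_apply, LinearMap.smul_apply, dn_apply,
    Module.End.one_apply, map_add, map_smul, map_neg, smul_neg, neg_neg]
  ext
  · simp only [Prod.smul_fst, ← h1]
    abel
  · simp only [Prod.smul_snd, ← h2]

theorem up_dn (q : S) (x : Module.End S N) (b : S) :
    up N q * dn x b + dn x b * up N q = b • 1 := by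
  apply LinearMap.ext
  intro p
  simp only [LinearMap.add_apply, Module.End.mul_apply, LinearMap.smul_apply, dn_apply, up_apply,
    Module.End.one_apply, map_smul, smul_neg, Prod.mk_add_mk]
  ext
  · simp only [Prod.smul_fst]
    abel
  · simp only [Prod.smul_snd]
    abel

theorem s1 (s t : S) : (s - t) • (1 : Module.End S N) = s • 1 - t • 1 :=
  LinearMap.ext fun p => sub_smul s t p
theorem s2 (s t : S) : (s + t) • (1 : Module.End S N) = s • 1 + t • 1 :=
  LinearMap.ext fun p => add_smul s t p
theorem s3 (s : S) : (-s) • (1 : Module.End S N) = -(s • 1) :=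
  LinearMap.ext fun p => neg_smul s p
theorem s0 : (0 : S) • (1 : Module.End S N) = 0 :=
  LinearMap.ext fun p => zero_smul S p
theorem s4 {k : Type u} [Field k] [Algebra k S] [Module k N] [IsScalarTower k S N]
    [SMulCommClass S k N] (c : k) (s : S) : (c • s) • (1 : Module.End S N) = c • (s • 1) :=
  LinearMap.ext fun p => smul_assoc c s p

/-- place `u` at the position given by the parity of `n` -/
def sel (n : ℕ) (u : N) : N × N := if n % 2 = 0 then (u, 0) else (0, u)

/-- read off the position given by the parity of `n` -/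
def get (n : ℕ) (p : N × N) : N := if n % 2 = 0 then p.1 else p.2

theorem get_sel (n m : ℕ) (u : N) : get n (sel m u) = if n % 2 = m % 2 then u else 0 := by
  unfold get sel
  rcases Nat.mod_two_eq_zero_or_one n with h | h <;>
    rcases Nat.mod_two_eq_zero_or_one m with h' | h' <;> simp [h, h']

theorem get_add (n : ℕ) (p q : N × N) : get n (p + q) = get n p + get n q := by
  unfold get; split_ifs <;> rfl
theorem get_smul {R : Type*} [SMul R N] (n : ℕ) (c : R) (p : N × N) :
    get n (c • p) = c • get n p := by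
  unfold get; split_ifs <;> rfl
theorem get_zero (n : ℕ) : get n (0 : N × N) = 0 := by
  unfold get; split_ifs <;> rfl

theorem sel_smul (n : ℕ) (c : S) (u : N) : sel n (c • u) = c • sel n u := by
  unfold sel; split_ifs <;> simp

theorem sel_mod (n : ℕ) (u : N) : sel (n % 2) u = sel n u := by
  unfold sel; rw [Nat.mod_mod]

theorem up_pow (q : S) (n : ℕ) (u : N) : (up N q ^ n) (u, 0) = sel n (q ^ (n / 2) • u) := by
  induction n with
  | zero => simp [sel]
  | succ n ih =>
    rw [pow_succ', Module.End.mul_apply, ih, up_apply]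
    rcases Nat.even_or_odd' n with ⟨c, rfl | rfl⟩
    · have e1 : 2 * c % 2 = 0 := by omega
      have e2 : (2 * c + 1) % 2 = 1 := by omega
      have e3 : 2 * c / 2 = c := by omega
      have e4 : (2 * c + 1) / 2 = c := by omega
      simp [sel, e1, e2, e3, e4]
    · have e1 : (2 * c + 1) % 2 = 1 := by omega
      have e2 : (2 * c + 1 + 1) % 2 = 0 := by omega
      have e3 : (2 * c + 1) / 2 = c := by omega
      have e4 : (2 * c + 1 + 1) / 2 = c + 1 := by omega
      simp [sel, e1, e2, e3, e4, pow_succ', mul_smul]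

theorem dn_pow (x : Module.End S N) (b : S) (n : ℕ) (u : N) :
    (dn x b ^ n) (u, 0) = ((x ^ n) u, 0) := by
  induction n with
  | zero => simp
  | succ n ih =>
    rw [pow_succ', Module.End.mul_apply, ih, dn_apply, pow_succ', Module.End.mul_apply]
    simp

end Double

section Model

variable {k : Type u} [Field k]

/-- the polynomial ring in four variables -/
abbrev SS (k : Type u) [Field k] := MvPolynomial (Fin 4) k

/-- first level -/
abbrev N1 (k : Type u) [Field k] := SS k × SS k
/-- second level -/
abbrev N2 (k : Type u) [Field k] := N1 k × N1 k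
/-- third level -/
abbrev N3 (k : Type u) [Field k] := N2 k × N2 k
/-- fourth level -/
abbrev N4 (k : Type u) [Field k] := N3 k × N3 k

variable (I : k)

/-- the square of `x` -/
noncomputable def qx : SS k := -((3 + 2 * I) • X 0) - (1 - 2 * I) • X 2
/-- the square of `y` -/
noncomputable def qy : SS k := -((2 : k) • X 0) - (2 - 2 * I) • X 2
/-- the anticommutator of `x` and `w` -/
noncomputable def bxw : SS k := X 1 - (2 + 2 * I) • X 2
/-- the anticommutator of `y` and `z` -/
noncomputable def byz : SS k := -(I • X 1) - (2 : k) • X 2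
/-- the anticommutator of `y` and `w` -/
noncomputable def byw : SS k := I • X 1 + (2 * I) • X 0 + (4 : k) • X 2

/-- `w` on the first level -/
noncomputable def w1 (k : Type u) [Field k] : Module.End (SS k) (N1 k) := up (SS k) (X 2)
/-- `z` on the second level -/
noncomputable def z2 (k : Type u) [Field k] : Module.End (SS k) (N2 k) := up (N1 k) (X 0)
/-- `w` on the second level -/
noncomputable def w2 (k : Type u) [Field k] : Module.End (SS k) (N2 k) := dn (w1 k) 0
/-- `x` on the third level -/
noncomputable def x3 : Module.End (SS k) (N3 k) := up (N2 k) (qx I)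
/-- `z` on the third level -/
noncomputable def z3 (k : Type u) [Field k] : Module.End (SS k) (N3 k) := dn (z2 k) (X 1)
/-- `w` on the third level -/
noncomputable def w3 : Module.End (SS k) (N3 k) := dn (w2 k) (bxw I)
/-- `y` on the fourth level -/
noncomputable def y4 : Module.End (SS k) (N4 k) := up (N3 k) (qy I)
/-- `x` on the fourth level -/
noncomputable def x4 : Module.End (SS k) (N4 k) := dn (x3 I) (X 3)
/-- `z` on the fourth level -/
noncomputable def z4 : Module.End (SS k) (N4 k) := dn (z3 k) (byz I)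
/-- `w` on the fourth level -/
noncomputable def w4 : Module.End (SS k) (N4 k) := dn (w3 I) (byw I)

theorem ww4 : w4 I * w4 I = (X 2 : SS k) • 1 :=
  dn_sq _ _ _ (dn_sq _ _ _ (dn_sq _ _ _ (up_up _)))
theorem zz4 : z4 I * z4 I = (X 0 : SS k) • 1 :=
  dn_sq _ _ _ (dn_sq _ _ _ (up_up _))
theorem xx4 : x4 I * x4 I = qx I • 1 := dn_sq _ _ _ (up_up _)
theorem yy4 : y4 I * y4 I = qy I • 1 := up_up _
theorem zw4 : z4 I * w4 I + w4 I * z4 I = (0 : SS k) • 1 :=
  dn_dn _ _ _ _ _ (dn_dn _ _ _ _ _ (up_dn _ _ _))
theorem xz4 : x4 I * z4 I + z4 I * x4 I = (X 1 : SS k) • 1 :=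
  dn_dn _ _ _ _ _ (up_dn _ _ _)
theorem xw4 : x4 I * w4 I + w4 I * x4 I = bxw I • 1 :=
  dn_dn _ _ _ _ _ (up_dn _ _ _)
theorem yx4 : y4 I * x4 I + x4 I * y4 I = (X 3 : SS k) • 1 := up_dn _ _ _
theorem yz4 : y4 I * z4 I + z4 I * y4 I = byz I • 1 := up_dn _ _ _
theorem yw4 : y4 I * w4 I + w4 I * y4 I = byw I • 1 := up_dn _ _ _

theorem rels4 : Rels I (z4 I) (x4 I) (w4 I) (y4 I) where
  zw := by rw [zw4, s0]
  xw := by rw [xw4, xz4, ww4, bxw, s1, s4]
  yz := by rw [yz4, xz4, ww4, byz, s1, s3, s4, s4]
  yw := by rw [yw4, xz4, zz4, ww4, byw, s2, s2, s4, s4, s4]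
  xx := by rw [xx4, zz4, ww4, qx, s1, s3, s4, s4]
  yy := by rw [yy4, zz4, ww4, qy, s1, s3, s4, s4]

/-- the vacuum vector -/
noncomputable def vac (k : Type u) [Field k] : N4 k := ((((1, 0), 0), 0), 0)

theorem act_w (n : ℕ) : (w4 I ^ n) (vac k) = (((sel n ((X 2 : SS k) ^ (n / 2) • 1), 0), 0), 0) := by
  rw [vac, w4, dn_pow, w3, dn_pow, w2, dn_pow, w1, up_pow]

theorem act_z (n : ℕ) (u : N1 k) :
    (z4 I ^ n) (((u, 0), 0), 0) = ((sel n ((X 0 : SS k) ^ (n / 2) • u), 0), 0) := by
  rw [z4, dn_pow, z3, dn_pow, z2, up_pow]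

theorem act_x (n : ℕ) (u : N2 k) :
    (x4 I ^ (n % 2)) ((u, 0), 0) = (sel n u, 0) := by
  rw [x4, dn_pow, x3, up_pow, sel_mod]
  have : n % 2 / 2 = 0 := by omega
  rw [this, pow_zero, one_smul]

theorem act_y (n : ℕ) (u : N3 k) :
    (y4 I ^ (n % 2)) (u, 0) = sel n u := by
  rw [y4, up_pow, sel_mod]
  have : n % 2 / 2 = 0 := by omega
  rw [this, pow_zero, one_smul]

theorem act_mon (e : Fin 4 → ℕ) :
    (y4 I ^ (e 3 % 2) * (x4 I ^ (e 1 % 2) * (z4 I ^ e 0 * w4 I ^ e 2))) (vac k)
      = sel (e 3) (sel (e 1) (sel (e 0) (sel (e 2)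
          ((X 0 : SS k) ^ (e 0 / 2) * X 2 ^ (e 2 / 2))))) := by
  rw [Module.End.mul_apply, Module.End.mul_apply, Module.End.mul_apply, act_w, act_z, act_x, act_y,
    ← sel_smul, smul_eq_mul, smul_eq_mul, mul_one]

end Model

end Pool.Agent.J4H97.PM2
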