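import Pool.Agent.J4H97.PM2.C

set_option autoImplicit false

/-!
# The equations of the point scheme have exactly two solutions
-/

universe u

namespace Pool.Agent.J4H97.PM2

open Pool.Agent.W506.PM
open scoped LinearAlgebra.Projectivization

variable {k : Type u} [Field k]

/-- The six equations (coordinates `0 = z`, `1 = x`, `2 = w`, `3 = y`). -/
def Eqs (I : k) (p q : Fin 4 → k) : Prop :=
  p 0 * q 2 + p 2 * q 0 = 0 ∧
  p 1 * q 2 + p 2 * q 1 = p 1 * q 0 + p 0 * q 1 - (2 + 2 * I) * (p 2 * q 2) ∧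
  p 3 * q 0 + p 0 * q 3 = -I * (p 1 * q 0 + p 0 * q 1) - 2 * (p 2 * q 2) ∧
  p 3 * q 2 + p 2 * q 3 = I * (p 1 * q 0 + p 0 * q 1) + 2 * I * (p 0 * q 0) + 4 * (p 2 * q 2) ∧
  p 1 * q 1 = -(3 + 2 * I) * (p 0 * q 0) - (1 - 2 * I) * (p 2 * q 2) ∧
  p 3 * q 3 = -2 * (p 0 * q 0) - (2 - 2 * I) * (p 2 * q 2)

theorem zero_iff (φ : GaussianInt →+* k) (p q : Fin 4 → k) :
    Zero (rr φ) p q ↔ Eqs (im φ) p q := by
  constructor
  · intro h
    have h0 := h 0
    have h1 := h 1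
    have h2 := h 2
    have h3 := h 3
    have h4 := h 4
    have h5 := h 5
    simp only [Fin.sum_univ_four, rr, RZ, Matrix.cons_val, phi_eq, Int.cast_zero,
      Int.cast_one, Int.cast_neg, Int.cast_ofNat] at h0 h1 h2 h3 h4 h5
    refine ⟨?_, ?_, ?_, ?_, ?_, ?_⟩
    · linear_combination h0
    · linear_combination h1
    · linear_combination h2
    · linear_combination h3
    · linear_combination h4
    · linear_combination h5
  · rintro ⟨h0, h1, h2, h3, h4, h5⟩ i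
    fin_cases i <;> simp only [Fin.sum_univ_four, rr, RZ, Matrix.cons_val, phi_eq, Int.cast_zero,
      Int.cast_one, Int.cast_neg, Int.cast_ofNat, Fin.zero_eta, Fin.mk_one, Fin.reduceFinMk]
    · linear_combination h0
    · linear_combination h1
    · linear_combination h2
    · linear_combination h3
    · linear_combination h4
    · linear_combination h5

theorem no_third (I : k) (hI : I ^ 2 + 1 = 0) (h2 : (2 : k) ≠ 0) (s r t : k)
    (h1 : r ^ 2 * t ^ 2 - s ^ 2 * (t + (2 + 2 * I) * r ^ 2) ^ 2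
      - 4 * s ^ 2 * r ^ 2 * (-(3 + 2 * I) * s ^ 2 + (1 - 2 * I) * r ^ 2) = 0)
    (h2' : r ^ 2 * (-I * t + 2 * r ^ 2) ^ 2 - s ^ 2 * (I * t + 2 * I * s ^ 2 - 4 * r ^ 2) ^ 2
      - 4 * s ^ 2 * r ^ 2 * (-2 * s ^ 2 + (2 - 2 * I) * r ^ 2) = 0) : s = 0 ∧ r = 0 := by
  have h8 : (8 : k) ≠ 0 := by
    have : (8 : k) = 2 * 2 * 2 := by norm_num
    rw [this]; exact mul_ne_zero (mul_ne_zero h2 h2) h2
  have hI0 : I ≠ 0 := by
    rintro rfl
    norm_num at hI
  have hI1 : 1 + I ≠ 0 := by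
    intro h
    apply h2
    linear_combination hI + (1 - I) * h
  obtain ⟨w, hw⟩ : ∃ w, w = s ^ 2 - r ^ 2 := ⟨_, rfl⟩
  obtain ⟨R, hR⟩ : ∃ R, R = (1 + I) * s ^ 2 - (1 - I) * r ^ 2 := ⟨_, rfl⟩
  obtain ⟨T, hT⟩ : ∃ T, T = t + 2 * I * s ^ 2 - (2 - 2 * I) * r ^ 2 := ⟨_, rfl⟩
  have d0 : T * w * R - (1 + I) * (w ^ 3 + R ^ 3) = 0 := by
    apply (mul_eq_zero.1 (?_ : (8 : k) * _ = 0)).resolve_left h8
    rw [hw, hR, hT]
    linear_combination (2 + 2 * I) * (h1 + h2') + (-8*s^6*I^2 - 24*s^6*I - 16*s^6 - 24*s^4*r^2*I^2 - 48*s^4*r^2*I - 8*s^4*r^2 + 8*s^4*t*I + 8*s^4*t - 24*s^2*r^4*I^2 + 8*s^2*r^4*I + 48*s^2*r^4 - 8*s^2*r^2*t + 2*s^2*t^2*I + 2*s^2*t^2 - 8*r^6*I^2 + 16*r^6*I - 8*r^6 + 8*r^4*t - 2*r^2*t^2*I - 2*r^2*t^2) * hI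
  have c0 : T ^ 2 * w - (1 + I) * T * R ^ 2 - 2 * I * w ^ 2 * R = 0 := by
    apply (mul_eq_zero.1 (?_ : (2 : k) * _ = 0)).resolve_left h2
    rw [hw, hR, hT]
    linear_combination (1 + I) * (I * h1 + h2') + (-4*s^6*I^2 - 8*s^6*I - 12*s^4*r^2*I^2 - 24*s^4*r^2*I - 4*s^4*r^2 + 2*s^4*t*I - 2*s^4*t - 8*s^2*r^4*I^2 + 8*s^2*r^4*I + 24*s^2*r^4 - 4*s^2*r^2*t + s^2*t^2*I + 2*s^2*t^2 - 4*r^6*I^2 + 8*r^6*I - 8*r^6 - 2*r^4*t*I + 6*r^4*t - r^2*t^2*I - 2*r^2*t^2) * hI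
  have w6 : 2 * I * w ^ 6 = 0 := by
    linear_combination (w * R ^ 2) * c0
      - (T * w * R + (1 + I) * (w ^ 3 + R ^ 3) - (1 + I) * R ^ 3) * d0
      - ((w ^ 3 + R ^ 3) * w ^ 3) * hI
  have w0 : w = 0 := by
    have := (mul_eq_zero.1 w6).resolve_left (mul_ne_zero h2 hI0)
    exact pow_eq_zero_iff (by norm_num) |>.1 this
  have R0 : R = 0 := by
    rw [w0] at d0
    have : (1 + I) * R ^ 3 = 0 := by linear_combination -d0
    have := (mul_eq_zero.1 this).resolve_left hI1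
    exact pow_eq_zero_iff (by norm_num) |>.1 this
  rw [w0] at hw
  rw [R0] at hR
  have e : (2 * I) * s ^ 2 = 0 := by linear_combination -hR + (1 - I) * hw
  have s0 : s = 0 := by
    have := (mul_eq_zero.1 e).resolve_left (mul_ne_zero h2 hI0)
    exact pow_eq_zero_iff (by norm_num) |>.1 this
  refine ⟨s0, ?_⟩
  rw [s0] at hw
  have : r ^ 2 = 0 := by linear_combination hw
  exact pow_eq_zero_iff (by norm_num) |>.1 this

theorem caseB (I : k) (hI : I ^ 2 + 1 = 0) (h2 : (2 : k) ≠ 0) (p q : Fin 4 → k)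
    (h : Eqs I p q) (h0 : q 0 = p 0) (h2' : q 2 = -p 2) : p 0 = 0 ∧ p 2 = 0 := by
  obtain ⟨-, e1, e2, e3, e4, e5⟩ := h
  rw [h0, h2'] at e1 e2 e3 e4 e5
  apply no_third I hI h2 (p 0) (p 2) (p 0 * (p 1 + q 1))
  · linear_combination (p 0 ^ 2 * ((p 0 * (p 1 + q 1) + (2 + 2 * I) * p 2 ^ 2)
      + p 2 * (q 1 - p 1))) * e1 + (4 * p 0 ^ 2 * p 2 ^ 2) * e4
  · linear_combination (-(p 2 ^ 2) * ((-I * (p 0 * (p 1 + q 1)) + 2 * p 2 ^ 2)
      + p 0 * (p 3 + q 3))) * e2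
      + (p 0 ^ 2 * ((I * (p 0 * (p 1 + q 1)) + 2 * I * p 0 ^ 2 - 4 * p 2 ^ 2)
      + p 2 * (q 3 - p 3))) * e3 + (4 * p 0 ^ 2 * p 2 ^ 2) * e5

theorem eqs_smul_right (I : k) (p q : Fin 4 → k) (a : k) (h : Eqs I p q) : Eqs I p (a • q) := by
  obtain ⟨e0, e1, e2, e3, e4, e5⟩ := h
  simp only [Eqs, Pi.smul_apply, smul_eq_mul]
  refine ⟨?_, ?_, ?_, ?_, ?_, ?_⟩
  · linear_combination a * e0
  · linear_combination a * e1
  · linear_combination a * e2
  · linear_combination a * e3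
  · linear_combination a * e4
  · linear_combination a * e5

theorem eqs_comm (I : k) (p q : Fin 4 → k) (h : Eqs I p q) : Eqs I q p := by
  obtain ⟨e0, e1, e2, e3, e4, e5⟩ := h
  refine ⟨?_, ?_, ?_, ?_, ?_, ?_⟩
  · linear_combination e0
  · linear_combination e1
  · linear_combination e2
  · linear_combination e3
  · linear_combination e4
  · linear_combination e5

theorem caseA (I : k) (hI0 : I ≠ 0) (h2 : (2 : k) ≠ 0) (p q : Fin 4 → k) (hp : p ≠ 0)
    (hq : q ≠ 0) (h : Eqs I p q) (h0 : q 0 = 0) (h2' : q 2 = 0) :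
    p 0 = 0 ∧ p 2 = 0 ∧ ((p 1 = 0 ∧ q 3 = 0 ∧ p 3 ≠ 0 ∧ q 1 ≠ 0) ∨
      (p 3 = 0 ∧ q 1 = 0 ∧ p 1 ≠ 0 ∧ q 3 ≠ 0)) := by
  obtain ⟨-, e1, e2, e3, e4, e5⟩ := h
  rw [h0, h2'] at e1 e2 e3 e4 e5
  simp only [mul_zero, zero_add, add_zero, sub_zero] at e1 e2 e3 e4 e5
  rcases mul_eq_zero.1 e4 with hp1 | hq1
  · by_cases hq1 : q 1 = 0
    · have hq3 : q 3 ≠ 0 := by
        intro h3
        apply hq
        funext i
        fin_cases i <;> simp [h0, hq1, h2', h3]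
      rw [hq1] at e2 e3
      have hp0 : p 0 = 0 := by
        rcases mul_eq_zero.1 (show p 0 * q 3 = 0 by linear_combination e2) with h | h
        · exact h
        · exact absurd h hq3
      have hp2 : p 2 = 0 := by
        rcases mul_eq_zero.1 (show p 2 * q 3 = 0 by linear_combination e3) with h | h
        · exact h
        · exact absurd h hq3
      have hp3 : p 3 = 0 := (mul_eq_zero.1 e5).resolve_right hq3
      exfalso
      apply hp
      funext i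
      fin_cases i <;> simp [hp0, hp1, hp2, hp3]
    · have h20 : p 2 = p 0 := mul_right_cancel₀ hq1 e1
      have e : 2 * I * (p 0 * q 1) = 0 := by
        rw [h20] at e3
        linear_combination e2 - e3
      have hp0 : p 0 = 0 := by
        have := (mul_eq_zero.1 e).resolve_left (mul_ne_zero h2 hI0)
        exact (mul_eq_zero.1 this).resolve_right hq1
      have hp2 : p 2 = 0 := by rw [h20, hp0]
      have hp3 : p 3 ≠ 0 := by
        intro h3
        apply hp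
        funext i
        fin_cases i <;> simp [hp0, hp1, hp2, h3]
      exact ⟨hp0, hp2, Or.inl ⟨hp1, (mul_eq_zero.1 e5).resolve_left hp3, hp3, hq1⟩⟩
  · have hq3 : q 3 ≠ 0 := by
      intro h3
      apply hq
      funext i
      fin_cases i <;> simp [h0, hq1, h2', h3]
    rw [hq1] at e2 e3
    have hp0 : p 0 = 0 := by
      rcases mul_eq_zero.1 (show p 0 * q 3 = 0 by linear_combination e2) with h | h
      · exact h
      · exact absurd h hq3
    have hp2 : p 2 = 0 := by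
      rcases mul_eq_zero.1 (show p 2 * q 3 = 0 by linear_combination e3) with h | h
      · exact h
      · exact absurd h hq3
    have hp3 : p 3 = 0 := (mul_eq_zero.1 e5).resolve_right hq3
    have hp1 : p 1 ≠ 0 := by
      intro h1
      apply hp
      funext i
      fin_cases i <;> simp [hp0, h1, hp2, hp3]
    exact ⟨hp0, hp2, Or.inr ⟨hp3, hq1, hp1, hq3⟩⟩

/-- all solutions -/
theorem solve (I : k) (hI : I ^ 2 + 1 = 0) (h2 : (2 : k) ≠ 0) (p q : Fin 4 → k) (hp : p ≠ 0)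
    (hq : q ≠ 0) (h : Eqs I p q) :
    p 0 = 0 ∧ p 2 = 0 ∧ q 0 = 0 ∧ q 2 = 0 ∧ ((p 1 = 0 ∧ q 3 = 0 ∧ p 3 ≠ 0 ∧ q 1 ≠ 0) ∨
      (p 3 = 0 ∧ q 1 = 0 ∧ p 1 ≠ 0 ∧ q 3 ≠ 0)) := by
  have hI0 : I ≠ 0 := by
    rintro rfl
    norm_num at hI
  by_cases hA : q 0 = 0 ∧ q 2 = 0
  · obtain ⟨a, b, c⟩ := caseA I hI0 h2 p q hp hq h hA.1 hA.2
    exact ⟨a, b, hA.1, hA.2, c⟩
  · by_cases hB : p 0 = 0 ∧ p 2 = 0
    · exact absurd (caseA I hI0 h2 q p hq hp (eqs_comm I p q h) hB.1 hB.2).1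
        (fun h0 => hA ⟨h0, (caseA I hI0 h2 q p hq hp (eqs_comm I p q h) hB.1 hB.2).2.1⟩)
    · exfalso
      have e0 := h.1
      obtain ⟨l, hl, hl0, hl2⟩ : ∃ l : k, l ≠ 0 ∧ l * q 0 = p 0 ∧ l * q 2 = -p 2 := by
        by_cases hq0 : q 0 = 0
        · have hq2 : q 2 ≠ 0 := fun h => hA ⟨hq0, h⟩
          have hp0 : p 0 = 0 := by
            rw [hq0, mul_zero, add_zero] at e0
            exact (mul_eq_zero.1 e0).resolve_right hq2
          have hp2 : p 2 ≠ 0 := fun h => hB ⟨hp0, h⟩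
          refine ⟨-p 2 / q 2, div_ne_zero (neg_ne_zero.2 hp2) hq2, ?_, ?_⟩
          · rw [hq0, mul_zero, hp0]
          · field_simp
        · by_cases hp0 : p 0 = 0
          · exfalso
            rw [hp0, zero_mul, zero_add] at e0
            exact hB ⟨hp0, (mul_eq_zero.1 e0).resolve_right hq0⟩
          · refine ⟨p 0 / q 0, div_ne_zero hp0 hq0, ?_, ?_⟩
            · field_simp
            · field_simp
              linear_combination e0
      have := caseB I hI h2 p (l • q) (eqs_smul_right I p q l h) hl0 hl2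
      exact hB this

theorem eqs_13 (I : k) (a b : k) : Eqs I (Pi.single 1 a) (Pi.single 3 b) := by
  simp [Eqs]

theorem eqs_31 (I : k) (a b : k) : Eqs I (Pi.single 3 a) (Pi.single 1 b) := by
  simp [Eqs]

theorem pts (I : k) (hI : I ^ 2 + 1 = 0) (h2 : (2 : k) ≠ 0) :
    Nat.card {P : ℙ k (Fin 4 → k) // ∃ q : Fin 4 → k, q ≠ 0 ∧ Eqs I P.rep q} = 2 ∧
    (∀ p q q' : Fin 4 → k, p ≠ 0 → q ≠ 0 → q' ≠ 0 → Eqs I p q → Eqs I p q' →
      ∃ c : k, q' = c • q) ∧
    (∀ p q : Fin 4 → k, p ≠ 0 → q ≠ 0 → Eqs I p q → ∃ s : Fin 4 → k, s ≠ 0 ∧ Eqs I q s) := by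
  refine ⟨?_, ?_, fun p q hp _ h => ⟨p, hp, eqs_comm I p q h⟩⟩
  · have n1 : (Pi.single 1 1 : Fin 4 → k) ≠ 0 := by simp
    have n3 : (Pi.single 3 1 : Fin 4 → k) ≠ 0 := by simp
    have hS : {P : ℙ k (Fin 4 → k) | ∃ q : Fin 4 → k, q ≠ 0 ∧ Eqs I P.rep q}
        = {Projectivization.mk k (Pi.single 1 1) n1, Projectivization.mk k (Pi.single 3 1) n3} := by
      ext P
      simp only [Set.mem_ofPred_eq, Set.mem_insert_iff, Set.mem_singleton_iff]
      constructor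
      · rintro ⟨q, hq, h⟩
        obtain ⟨a0, a2, -, -, hc⟩ := solve I hI h2 P.rep q P.rep_nonzero hq h
        rcases hc with ⟨a1, -, a3, -⟩ | ⟨a3, -, a1, -⟩
        · right
          rw [← P.mk_rep, Projectivization.mk_eq_mk_iff']
          refine ⟨P.rep 3, ?_⟩
          funext i
          fin_cases i <;> simp [a0, a1, a2]
        · left
          rw [← P.mk_rep, Projectivization.mk_eq_mk_iff']
          refine ⟨P.rep 1, ?_⟩
          funext i
          fin_cases i <;> simp [a0, a2, a3]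
      · rintro (rfl | rfl)
        · obtain ⟨a, ha⟩ := Projectivization.exists_smul_eq_mk_rep k _ n1
          refine ⟨Pi.single 3 1, n3, ?_⟩
          rw [← ha]
          have : (a • (Pi.single 1 1 : Fin 4 → k)) = Pi.single 1 (a : k) := by
            rw [Units.smul_def, ← Pi.single_smul, smul_eq_mul, mul_one]
          rw [this]
          exact eqs_13 I _ _
        · obtain ⟨a, ha⟩ := Projectivization.exists_smul_eq_mk_rep k _ n3
          refine ⟨Pi.single 1 1, n1, ?_⟩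
          rw [← ha]
          have : (a • (Pi.single 3 1 : Fin 4 → k)) = Pi.single 3 (a : k) := by
            rw [Units.smul_def, ← Pi.single_smul, smul_eq_mul, mul_one]
          rw [this]
          exact eqs_31 I _ _
    have hne : Projectivization.mk k (Pi.single 1 1 : Fin 4 → k) n1
        ≠ Projectivization.mk k (Pi.single 3 1) n3 := by
      intro h
      rw [Projectivization.mk_eq_mk_iff'] at h
      obtain ⟨a, ha⟩ := h
      have := congrFun ha 1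
      simp at this
    have := Set.ncard_pair hne
    rw [← hS, ← Nat.card_coe_set_eq] at this
    exact this
  · intro p q q' hp hq hq' h h'
    obtain ⟨-, -, a0, a2, hc⟩ := solve I hI h2 p q hp hq h
    obtain ⟨-, -, b0, b2, hc'⟩ := solve I hI h2 p q' hp hq' h'
    rcases hc with ⟨p1, q3, p3, q1⟩ | ⟨p3, q1, p1, q3⟩
    · rcases hc' with ⟨-, q3', -, q1'⟩ | ⟨p3', -, -, -⟩
      · refine ⟨q' 1 / q 1, ?_⟩
        funext i
        fin_cases i <;> simp [a0, a2, b0, b2, q3, q3', q1]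
      · exact absurd p3' p3
    · rcases hc' with ⟨p1', -, -, -⟩ | ⟨-, q1', -, q3'⟩
      · exact absurd p1' p1
      · refine ⟨q' 3 / q 3, ?_⟩
        funext i
        fin_cases i <;> simp [a0, a2, b0, b2, q3, q1', q1]

end Pool.Agent.J4H97.PM2
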