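import Pool.Agent.J4H97.PM2.K
import Pool.Agent.J4H97.PM2.Pts

set_option autoImplicit false

/-!
# Assembly
-/

universe u

namespace Pool.Agent.J4H97.PM2

open Pool.Agent.W506.PM
open scoped LinearAlgebra.Projectivization

variable {k : Type u} [Field k] (φ : GaussianInt →+* k)

theorem gy_mem_quad (h2 : (2 : k) ≠ 0) (h5 : (2 + 4 * im φ : k) ≠ 0) (l : Fin 4) (u : AA φ) :
    Commute (gy k (mu1 k) (MM φ) l) u := by
  rw [← gy_gg φ h2 l]
  fin_cases l
  · have e : ∑ a, ∑ b, φ (NZ 0 a b) • (gg φ a * gg φ b) = cp φ := by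
      simp only [Fin.sum_univ_four, NZ, Matrix.cons_val, phi_eq, Int.cast_zero, Int.cast_one, cp]
      module
    show Commute (∑ a, ∑ b, φ (NZ 0 a b) • (gg φ a * gg φ b)) u
    rw [e]
    exact cenp φ h2 h5 u
  · have e : ∑ a, ∑ b, φ (NZ 1 a b) • (gg φ a * gg φ b)
        = cP φ - (2 * im φ) • (gg φ 2 * gg φ 2) := by
      simp only [Fin.sum_univ_four, NZ, Matrix.cons_val, phi_eq, Int.cast_zero, Int.cast_one, cP,
        Int.cast_neg, Int.cast_ofNat]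
      module
    show Commute (∑ a, ∑ b, φ (NZ 1 a b) • (gg φ a * gg φ b)) u
    rw [e]
    exact (cenP φ h2 h5 u).sub_left ((cenW φ h2 h5 u).smul_left _)
  · have e : ∑ a, ∑ b, φ (NZ 2 a b) • (gg φ a * gg φ b) = gg φ 0 * gg φ 0 := by
      simp only [Fin.sum_univ_four, NZ, Matrix.cons_val, phi_eq, Int.cast_zero, Int.cast_one]
      module
    show Commute (∑ a, ∑ b, φ (NZ 2 a b) • (gg φ a * gg φ b)) u
    rw [e]
    exact cenZ φ h2 h5 u
  · have e : ∑ a, ∑ b, φ (NZ 3 a b) • (gg φ a * gg φ b) = gg φ 2 * gg φ 2 := by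
      simp only [Fin.sum_univ_four, NZ, Matrix.cons_val, phi_eq, Int.cast_zero, Int.cast_one]
      module
    show Commute (∑ a, ∑ b, φ (NZ 3 a b) • (gg φ a * gg φ b)) u
    rw [e]
    exact cenW φ h2 h5 u

theorem isGSCA (h2 : (2 : k) ≠ 0) (h5 : (2 + 4 * im φ : k) ≠ 0) :
    IsGSCA k (mu1 k) (MM φ) where
  mu_ne_zero _ _ := one_ne_zero
  mu_mul _ _ := one_mul 1
  mu_diag _ := rfl
  symm l i j := by
    rw [mu1, one_mul, MM, Matrix.of_apply, Matrix.of_apply, MZ_symm]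
  normalizing := by
    refine ⟨gy k (mu1 k) (MM φ), rfl, fun i => ⟨fun a => ⟨a, ?_⟩, fun a => ⟨a, ?_⟩⟩⟩
    · rw [(gy_mem_quad φ h2 h5 i a).eq, sub_self]
      exact TwoSidedIdeal.zero_mem _
    · rw [(gy_mem_quad φ h2 h5 i a).eq, sub_self]
      exact TwoSidedIdeal.zero_mem _

theorem main (h10 : (10 : k) ≠ 0) :
    IsGSCA k (mu1 k) (MM φ) ∧ IsQuadratic (ggr k (mu1 k) (MM φ)) ∧
      IsASRegular (ggr k (mu1 k) (MM φ)) 4 ∧ Nat.card (PointClasses (ggr k (mu1 k) (MM φ))) = 2 := by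
  have h2 : (2 : k) ≠ 0 := by
    intro h
    apply h10
    have : (10 : k) = 2 * 5 := by norm_num
    rw [this, h, zero_mul]
  have hI2 := im_sq φ
  have h5 : (2 + 4 * im φ : k) ≠ 0 := by
    intro h
    apply h10
    have h20 : (2 : k) * 10 = 0 := by
      linear_combination (2 - 4 * im φ) * h + 16 * hI2
    exact (mul_eq_zero.1 h20).resolve_left h2
  have hI : im φ ^ 2 + 1 = 0 := by rw [sq, hI2]; ring
  have hP := isPres φ h2
  have hL := leftKos φ h2 h5 h10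
  have hR := rightKos φ h2 h5 h10
  have hconn := conn_gA φ h2 h5
  have hgenL : ∀ n, ∀ a ∈ gA φ (n + 1), ∃ f : Fin 4 → AA φ, a = ∑ j, f j * gg φ j :=
    fun n a ha => gen1 hconn _ (adjoin_gg φ h2) (ggm φ) n a ha
  have hgenR : ∀ n, ∀ a ∈ opGr (gA φ) (n + 1), ∃ f : Fin 4 → (AA φ)ᵐᵒᵖ,
      a = ∑ j, f j * MulOpposite.op (gg φ j) :=
    fun n a ha => gen1 hconn.op _ hP.op.gen
      (fun j => by rw [mem_opGr]; exact ggm φ j) n a ha
  have hgenL' : ∀ n, ∀ a ∈ gA φ (n + 1), ∃ f : Fin 4 → AA φ, a = ∑ j, gg φ j * f j := by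
    intro n a ha
    obtain ⟨f, hf⟩ := hgenR n (MulOpposite.op a) (by rw [mem_opGr]; exact ha)
    refine ⟨fun j => (f j).unop, ?_⟩
    have := congrArg MulOpposite.unop hf
    simpa only [Finset.unop_sum, MulOpposite.unop_mul, MulOpposite.unop_op] using this
  have hgenR' : ∀ n, ∀ a ∈ opGr (gA φ) (n + 1), ∃ f : Fin 4 → (AA φ)ᵐᵒᵖ,
      a = ∑ j, MulOpposite.op (gg φ j) * f j := by
    intro n a ha
    obtain ⟨f, hf⟩ := hgenL n a.unop (mem_opGr.1 ha)
    refine ⟨fun j => MulOpposite.op (f j), ?_⟩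
    have := congrArg MulOpposite.op hf
    simpa only [Finset.op_sum, MulOpposite.op_mul, MulOpposite.op_unop] using this
  refine ⟨isGSCA φ h2 h5, isQuadratic_of_pres _ hP (ggm φ),
    ⟨hconn, ⟨27, fun n => ?_⟩, ?_, ?_⟩, ?_⟩
  · rw [show Module.finrank k (ggr k (mu1 k) (MM φ) n) = (n + 3).choose 3 from
      finrank_gA φ h2 h5 n]
    exact growth_aux n
  · obtain ⟨e1, e2, e3⟩ := Pool.Agent.W45.PM.ext k (AA φ) (gA φ) (gg φ) (mm φ)
      (mm' φ) hconn (ggm φ) hgenL hgenL' hL hR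
    exact ⟨Pool.Agent.W991.PMGLD.mainGLD k (AA φ) (gA φ) (gg φ) (mm φ) (mm' φ)
      hconn (ggm φ) (mm_mem φ) (mm'_mem φ) hgenL hL, e1, e2, e3⟩
  · have hx : ∀ j, MulOpposite.op (gg φ j) ∈ opGr (gA φ) 1 := fun j => by
      rw [mem_opGr]; exact ggm φ j
    obtain ⟨e1, e2, e3⟩ := Pool.Agent.W45.PM.ext k (AA φ)ᵐᵒᵖ (opGr (gA φ))
      (fun j => MulOpposite.op (gg φ j)) (fun i j => MulOpposite.op (mm' φ i j))
      (fun i j => MulOpposite.op (mm φ i j)) hconn.op hx hgenR hgenR' hR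
      (hL.map (RingEquiv.opOp (AA φ)))
    exact ⟨Pool.Agent.W991.PMGLD.mainGLD k (AA φ)ᵐᵒᵖ (opGr (gA φ)) _ _ _
      hconn.op hx (fun i j => by rw [mem_opGr]; exact mm'_mem φ i j)
      (fun i j => by rw [mem_opGr]; exact mm_mem φ i j) hgenR hR, e1, e2, e3⟩
  · obtain ⟨c1, c2, c3⟩ := pts (im φ) hI h2
    have := Pool.Agent.W428.PMOD.taskPMOD k (AA φ) (gA φ) 4 6 (gg φ) (rr φ) hconn hP
      (ggm φ) (by simpa only [zero_iff] using c2) (by simpa only [zero_iff] using c3)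
    simp only [zero_iff] at this
    exact this.trans c1

/-- the ring homomorphism from the Gaussian integers given by a square root of `-1` -/
def phi (i0 : k) (hi : i0 * i0 = -1) : GaussianInt →+* k :=
  Zsqrtd.lift ⟨i0, by rw [hi]; simp⟩

end Pool.Agent.J4H97.PM2
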