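import Pool.Agent.J4H97.PM2.D

set_option autoImplicit false

/-!
# The algebra and its quadratic presentation
-/

universe u

namespace Pool.Agent.J4H97.PM2

open Pool.Agent.W506.PM

variable {k : Type u} [Field k]

/-- all `mu_ij` are one: a graded Clifford algebra -/
def mu1 (k : Type u) [Field k] : Fin 4 → Fin 4 → k := fun _ _ => 1

section

variable (φ : GaussianInt →+* k)

/-- The four symmetric matrices. -/
def MM (l : Fin 4) : Matrix (Fin 4) (Fin 4) k := Matrix.of fun a b => φ (MZ l a b)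

/-- The tensors of the six relations. -/
def rr (c : Fin 6) (a b : Fin 4) : k := φ (RZ c a b)

/-- The algebra. -/
abbrev AA : Type u := GAlg k (mu1 k) (MM φ)

/-- the generators -/
noncomputable abbrev gg : Fin 4 → AA φ := gx k (mu1 k) (MM φ)

theorem g_rel' (i j : Fin 4) : gg φ i * gg φ j + gg φ j * gg φ i
    = ∑ l, φ (MZ l i j) • gy k (mu1 k) (MM φ) l := by
  have := g_rel (mu1 k) (MM φ) i j
  rwa [mu1, one_smul] at this

theorem sym_sum {E : Type u} [Ring E] [Algebra k E] (t : Fin 4 → Fin 4 → k)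
    (ht : ∀ a b, t a b = t b a) (x : Fin 4 → E) :
    (2 : k) • ∑ a, ∑ b, t a b • (x a * x b) = ∑ a, ∑ b, t a b • (x a * x b + x b * x a) := by
  have : ∑ a, ∑ b, t a b • (x b * x a) = ∑ a, ∑ b, t a b • (x a * x b) := by
    rw [Finset.sum_comm]
    simp only [ht]
  simp only [smul_add, Finset.sum_add_distrib]
  rw [this, two_smul]

theorem tens_gg (t : Fin 4 → Fin 4 → GaussianInt) (ht : ∀ a b, t a b = t b a) :
    (2 : k) • ∑ a, ∑ b, φ (t a b) • (gg φ a * gg φ b)
      = ∑ l, φ (∑ a, ∑ b, t a b * MZ l a b) • gy k (mu1 k) (MM φ) l := by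
  rw [sym_sum (fun a b => φ (t a b)) (fun a b => by rw [ht]) (gg φ)]
  simp only [g_rel', Finset.smul_sum, smul_smul]
  simp only [map_sum, map_mul, Finset.sum_smul]
  rw [Finset.sum_comm_cycle]

theorem cancel2 (h2 : (2 : k) ≠ 0) {E : Type u} [Ring E] [Algebra k E] {x y : E}
    (h : (2 : k) • x = (2 : k) • y) : x = y := by
  have := congrArg (fun z => (2 : k)⁻¹ • z) h
  simpa only [smul_smul, inv_mul_cancel₀ h2, one_smul] using this

theorem rel_gg (h2 : (2 : k) ≠ 0) (c : Fin 6) :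
    ∑ a, ∑ b, rr φ c a b • (gg φ a * gg φ b) = 0 := by
  apply cancel2 h2
  rw [show (∑ a, ∑ b, rr φ c a b • (gg φ a * gg φ b))
    = ∑ a, ∑ b, φ (RZ c a b) • (gg φ a * gg φ b) from rfl, tens_gg φ (RZ c) (RZ_symm c)]
  simp only [RZ_MZ, map_zero, zero_smul, Finset.sum_const_zero, smul_zero]

theorem gy_gg (h2 : (2 : k) ≠ 0) (l : Fin 4) :
    ∑ a, ∑ b, φ (NZ l a b) • (gg φ a * gg φ b) = gy k (mu1 k) (MM φ) l := by
  apply cancel2 h2
  rw [tens_gg φ (NZ l) (NZ_symm l)]
  simp only [NZ_MZ]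
  rw [Finset.sum_eq_single l]
  · rw [if_pos rfl, map_ofNat]
  · intro m _ hm
    rw [if_neg (Ne.symm hm), map_zero, zero_smul]
  · simp

theorem adjoin_gg (h2 : (2 : k) ≠ 0) : Algebra.adjoin k (Set.range (gg φ)) = ⊤ := by
  rw [eq_top_iff, ← galg_adjoin]
  apply Algebra.adjoin_le
  have hx : ∀ i, gg φ i ∈ Algebra.adjoin k (Set.range (gg φ)) :=
    fun i => Algebra.subset_adjoin ⟨i, rfl⟩
  rintro _ (⟨i, rfl⟩ | ⟨l, rfl⟩)
  · exact hx i
  · rw [← gy_gg φ h2 l]
    exact Subalgebra.sum_mem _ fun a _ => Subalgebra.sum_mem _ fun b _ =>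
      Subalgebra.smul_mem _ (Subalgebra.mul_mem _ (hx a) (hx b)) _

theorem lift_gen {n : ℕ} (μ : Fin n → Fin n → k) (M : Fin n → Matrix (Fin n) (Fin n) k)
    {E : Type u} [Ring E] [Algebra k E] (y : Fin n ⊕ Fin n → E)
    (key : ∀ i j : Fin n, y (Sum.inl i) * y (Sum.inl j) + μ i j • (y (Sum.inl j) * y (Sum.inl i))
        = ∑ l, M l i j • y (Sum.inr l)) :
    ∃ f : GAlg k μ M →ₐ[k] E, ∀ i, f (gx k μ M i) = y (Sum.inl i) := by
  have hI : ∀ a ∈ (TwoSidedIdeal.span (grel k μ M)).asIdeal,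
      FreeAlgebra.lift k y a = 0 := by
    intro a ha
    rw [TwoSidedIdeal.mem_asIdeal] at ha
    have hle : TwoSidedIdeal.span (grel k μ M)
        ≤ TwoSidedIdeal.ker (FreeAlgebra.lift k y) := by
      rw [TwoSidedIdeal.span_le]
      rintro _ ⟨i, j, rfl⟩
      apply (TwoSidedIdeal.mem_ker _).2
      simp only [map_sub, map_add, map_mul, map_smul, map_sum, FreeAlgebra.lift_ι_apply]
      rw [key, sub_self]
    exact (TwoSidedIdeal.mem_ker _).1 (hle ha)
  refine ⟨Ideal.Quotient.liftₐ _ (FreeAlgebra.lift k y) hI, fun i => ?_⟩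
  exact FreeAlgebra.lift_ι_apply y (Sum.inl i)

theorem up_gg (E : Type u) [Ring E] [Algebra k E] (y : Fin 4 → E)
    (hy : ∀ c, ∑ a, ∑ b, rr φ c a b • (y a * y b) = 0) :
    ∃ f : AA φ →ₐ[k] E, ∀ i, f (gg φ i) = y i := by
  refine lift_gen (mu1 k) (MM φ)
    (Sum.elim y fun l => ∑ a, ∑ b, φ (NZ l a b) • (y a * y b)) ?_
  intro i j
  simp only [Sum.elim_inl, Sum.elim_inr, mu1, one_smul]
  have h1 : ∑ a, ∑ b, φ (LZ i j a b) • (y a * y b) = 0 := by
    have : ∀ a b, φ (LZ i j a b) • (y a * y b)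
        = ∑ c, φ (LZ i j (ea' c) (eb' c)) • (rr φ c a b • (y a * y b)) := by
      intro a b
      conv_lhs => rw [LZ_eq]
      simp only [map_sum, map_mul, Finset.sum_smul, smul_smul, rr]
    simp only [this]
    rw [Finset.sum_comm_cycle]
    apply Finset.sum_eq_zero
    intro c _
    simp only [← Finset.smul_sum]
    rw [hy c, smul_zero]
  have h2 : ∑ a, ∑ b, φ (LZ i j a b) • (y a * y b)
      = y i * y j + y j * y i - ∑ l, MM φ l i j • ∑ a, ∑ b, φ (NZ l a b) • (y a * y b) := by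
    have e1 : ∀ i j : Fin 4, ∑ a, ∑ b, φ (if a = i ∧ b = j then 1 else 0) • (y a * y b)
        = y i * y j := by
      intro i j
      rw [Finset.sum_eq_single i, Finset.sum_eq_single j]
      · simp
      · intro b _ hb; simp [hb]
      · simp
      · intro a _ ha; simp [ha]
      · simp
    have e2 : ∑ a, ∑ b, φ (if a = j ∧ b = i then 1 else 0) • (y a * y b) = y j * y i := e1 j i
    have e3 : ∑ a, ∑ b, φ (∑ l, MZ l i j * NZ l a b) • (y a * y b)
        = ∑ l, MM φ l i j • ∑ a, ∑ b, φ (NZ l a b) • (y a * y b) := by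
      simp only [map_sum, map_mul, Finset.sum_smul, Finset.smul_sum, smul_smul, MM,
        Matrix.of_apply]
      rw [Finset.sum_comm_cycle]
    rw [← e1 i j, ← e2, ← e3]
    simp only [LZ, map_sub, map_add, sub_smul, add_smul, Finset.sum_sub_distrib,
      Finset.sum_add_distrib]
  rw [← sub_eq_zero, ← h2, h1]

theorem isPres (h2 : (2 : k) ≠ 0) : IsPres (gg φ) (rr φ) where
  rel := rel_gg φ h2
  gen := adjoin_gg φ h2
  up E _ _ y hy := up_gg φ E y hy

end

end Pool.Agent.J4H97.PM2
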